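import Mathlib
import Pool.Agent.H76.RP.ZcF
import Pool.Agent.H76.GL.Defs

/-!
# Local formula near the line `Re s = 1`: definitions
-/

set_option autoImplicit false

open Complex

namespace Pool.Agent.H76.LF

open Pool.Agent.H76.CR Pool.Agent.H76.RP

/-- `∑ 1/(s - u)` over the zeros `u` of `ζ`, with multiplicity, in the disc `|u - (1 + it)| < r` -/
noncomputable def LZ (r t : ℝ) (s : ℂ) : ℂ :=
  ∑ᶠ u ∈ disc r t, (analyticOrderNatAt riemannZeta u : ℂ) / (s - u)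

/-- `∑_{p ≤ y} (log p / p) |1 + θ p^{it}|²` -/
noncomputable def PD (θ y t : ℝ) : ℝ :=
  ∑ p ∈ (Finset.Icc 1 ⌊y⌋₊).filter Nat.Prime,
    Real.log p / p * ‖(1 : ℂ) + θ * (p : ℂ) ^ ((t : ℂ) * I)‖ ^ 2

theorem LZ_sum {r : ℝ} (hr : r ≤ 1) (t : ℝ) (s : ℂ) :
    LZ r t s = ∑ u ∈ (disc_finite hr t).toFinset, (analyticOrderNatAt riemannZeta u : ℂ) / (s - u) := by
  unfold LZ
  exact finsum_mem_eq_finite_toFinset_sum _ _

theorem PD_nonneg (θ y t : ℝ) : 0 ≤ PD θ y t := by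
  unfold PD
  refine Finset.sum_nonneg fun p hp => ?_
  have h := (Finset.mem_filter.1 hp).2
  have : 0 ≤ Real.log p := Real.log_natCast_nonneg p
  positivity

end Pool.Agent.H76.LF
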