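import Mathlib
import Pool.Agent.H76.LF.Defs
import Pool.Agent.H76.RP.Dk0

/-!
# Low: bounds for `ζ'/ζ` and `ζ` to the right of the line `Re s = 1`

PROOF: (1), (2) `-ζ'/ζ (1 + b + it) = ∑' Λ(n) n^(-1-b-it)`
(`ArithmeticFunction.LSeries_vonMangoldt_eq_deriv_riemannZeta_div`), so its norm is at most
`-ζ'/ζ (1 + b) = 1/b - g(1 + b)`, `g = zetaPole'/zetaPole` bounded on the segment `[1, 2]` (compactness).
(3) `|ζ(1 + b + it)| ≥ b/C`: `1/|ζ(s)| ≤ ∑ n^(-σ)` (see the private lemma `low` in `H76/GL/GrT.lean`; copied).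
-/

set_option autoImplicit false

open Complex

namespace Pool.Agent.H76.LF

open Pool.Agent.H6 Pool.Agent.H6.Win Pool.Agent.H76.CR

/-- size of `∑ n^(-(1+a))` -/
private lemma tsum_le {a : ℝ} (ha : 0 < a) (ha1 : a ≤ 1) :
    ∑' n : ℕ, 1 / (n : ℝ) ^ (1 + a) ≤ 18 / a := by
  have h5 : riemannZeta ((1 + a : ℝ) : ℂ) = ((∑' n : ℕ, 1 / (n : ℝ) ^ (1 + a) : ℝ) : ℂ) := by
    rw [zeta_eq_tsum_one_div_nat_cpow (by rw [ofReal_re]; linarith), ofReal_tsum]
    congr 1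
    funext n
    rw [ofReal_div, ofReal_one, ofReal_cpow (Nat.cast_nonneg n), ofReal_natCast]
  have h4 : (∑' n : ℕ, 1 / (n : ℝ) ^ (1 + a)) = ‖riemannZeta ((1 + a : ℝ) : ℂ)‖ := by
    rw [h5, norm_real, Real.norm_of_nonneg (tsum_nonneg fun n => by positivity)]
  have h7 := norm_zetaPole_le (s := ((1 + a : ℝ) : ℂ)) (by rw [ofReal_re]; linarith)
  have h8 : zetaPole ((1 + a : ℝ) : ℂ) =
      (((1 + a : ℝ) : ℂ) - 1) * riemannZeta ((1 + a : ℝ) : ℂ) := by
    rw [zetaPole_of_ne]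
    intro h
    have : (1 + a : ℝ) = 1 := by exact_mod_cast h
    linarith
  rw [h8, norm_mul] at h7
  have h9 : ‖((1 + a : ℝ) : ℂ) - 1‖ = a := by
    rw [← ofReal_one, ← ofReal_sub, norm_real, Real.norm_of_nonneg (by linarith)]
    ring
  have h10 : ‖((1 + a : ℝ) : ℂ)‖ = 1 + a := by
    rw [norm_real, Real.norm_of_nonneg (by linarith)]
  rw [h9, h10] at h7
  rw [h4, le_div_iff₀ ha]
  nlinarith

/-- lower bound for `ζ` at `1 + a + it` -/
private lemma low {a : ℝ} (ha : 0 < a) (ha1 : a ≤ 1) (t : ℝ) :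
    a ≤ 18 * ‖riemannZeta (((1 + a : ℝ) : ℂ) + t * I)‖ := by
  set K0 : ℝ := ∑' n : ℕ, 1 / (n : ℝ) ^ (1 + a) with hK0
  have hK1 : K0 ≤ 18 / a := tsum_le ha ha1
  set c : ℂ := ((1 + a : ℝ) : ℂ) + t * I with hc
  have hcre : c.re = 1 + a := by rw [hc]; simp
  have h3 := norm_inv_riemannZeta_le (s := c) (x := 1 + a) (by linarith) (by rw [hcre])
  have hζ : riemannZeta c ≠ 0 := riemannZeta_ne_zero_of_one_le_re (by rw [hcre]; linarith)
  rw [norm_inv] at h3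
  have hpos : 0 < ‖riemannZeta c‖ := norm_pos_iff.2 hζ
  have h7 : 1 ≤ K0 * ‖riemannZeta c‖ := by
    rw [inv_le_iff_one_le_mul₀ hpos] at h3
    exact h3
  have h8 : 1 ≤ 18 / a * ‖riemannZeta c‖ := h7.trans (mul_le_mul_of_nonneg_right hK1 hpos.le)
  rw [div_mul_eq_mul_div, le_div_iff₀ ha] at h8
  linarith

/-- `-ζ'/ζ (1 + b + it)` is the Dirichlet series of `Λ` -/
private lemma lser {b : ℝ} (hb : 0 < b) (t : ℝ) :
    LSeries (fun n => (ArithmeticFunction.vonMangoldt n : ℂ)) (((1 + b : ℝ) : ℂ) + t * I) =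
      -(deriv riemannZeta (((1 + b : ℝ) : ℂ) + t * I) / riemannZeta (((1 + b : ℝ) : ℂ) + t * I)) := by
  rw [ArithmeticFunction.LSeries_vonMangoldt_eq_deriv_riemannZeta_div (by simp [hb]), neg_div]

/-- the value at a real point bounds the values on the vertical line -/
private lemma lbd {b : ℝ} (hb : 0 < b) (t : ℝ) :
    ‖LSeries (fun n => (ArithmeticFunction.vonMangoldt n : ℂ)) (((1 + b : ℝ) : ℂ) + t * I)‖ ≤
      ‖LSeries (fun n => (ArithmeticFunction.vonMangoldt n : ℂ)) ((1 + b : ℝ) : ℂ)‖ := by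
  have hs : LSeriesSummable (fun n => (ArithmeticFunction.vonMangoldt n : ℂ)) ((1 + b : ℝ) : ℂ) :=
    ArithmeticFunction.LSeriesSummable_vonMangoldt (by simp; linarith)
  have e0 : ∀ n : ℕ, LSeries.term (fun n => (ArithmeticFunction.vonMangoldt n : ℂ)) ((1 + b : ℝ) : ℂ) n =
      ((‖LSeries.term (fun n => (ArithmeticFunction.vonMangoldt n : ℂ)) ((1 + b : ℝ) : ℂ) n‖ : ℝ) : ℂ) := by
    intro n
    rcases Nat.eq_zero_or_pos n with h | h
    · subst h
      simp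
    · have hn : (0 : ℝ) < n := by exact_mod_cast h
      rw [LSeries.term_of_ne_zero h.ne']
      have e1 : (n : ℂ) ^ (((1 + b : ℝ)) : ℂ) = (((n : ℝ) ^ (1 + b) : ℝ) : ℂ) := by
        rw [ofReal_cpow hn.le, ofReal_natCast]
      rw [e1, ← ofReal_div, norm_real, Real.norm_of_nonneg]
      exact div_nonneg ArithmeticFunction.vonMangoldt_nonneg (by positivity)
  have e2 : ∀ n : ℕ, ‖LSeries.term (fun n => (ArithmeticFunction.vonMangoldt n : ℂ))
      (((1 + b : ℝ) : ℂ) + t * I) n‖ =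
      ‖LSeries.term (fun n => (ArithmeticFunction.vonMangoldt n : ℂ)) ((1 + b : ℝ) : ℂ) n‖ := by
    intro n
    rcases Nat.eq_zero_or_pos n with h | h
    · subst h
      simp
    · rw [LSeries.norm_term_eq, LSeries.norm_term_eq]
      simp
  have h1 : ‖LSeries (fun n => (ArithmeticFunction.vonMangoldt n : ℂ)) (((1 + b : ℝ) : ℂ) + t * I)‖ ≤
      ∑' n : ℕ, ‖LSeries.term (fun n => (ArithmeticFunction.vonMangoldt n : ℂ)) ((1 + b : ℝ) : ℂ) n‖ := by
    unfold LSeries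
    refine (norm_tsum_le_tsum_norm ?_).trans (le_of_eq (tsum_congr e2))
    refine Summable.congr hs.norm (fun n => (e2 n).symm)
  refine h1.trans (le_of_eq ?_)
  have h2 : LSeries (fun n => (ArithmeticFunction.vonMangoldt n : ℂ)) ((1 + b : ℝ) : ℂ) =
      ((∑' n : ℕ, ‖LSeries.term (fun n => (ArithmeticFunction.vonMangoldt n : ℂ)) ((1 + b : ℝ) : ℂ) n‖ : ℝ) : ℂ) := by
    unfold LSeries
    rw [ofReal_tsum]
    exact tsum_congr e0
  rw [h2, norm_real, Real.norm_of_nonneg (tsum_nonneg fun n => norm_nonneg _)]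

/-- `-ζ'/ζ (1 + b) = 1/b + O(1)` -/
private lemma real_pt : ∃ M : ℝ, ∀ b : ℝ, 0 < b → b ≤ 1 →
    ‖LSeries (fun n => (ArithmeticFunction.vonMangoldt n : ℂ)) ((1 + b : ℝ) : ℂ) - ((1 / b : ℝ) : ℂ)‖ ≤ M := by
  set g : ℂ → ℂ := fun z => deriv zetaPole z / zetaPole z with hg
  have hgc : ContinuousOn (fun x : ℝ => g ((x : ℝ) : ℂ)) (Set.Icc 1 2) := by
    intro x hx
    have hne : zetaPole ((x : ℝ) : ℂ) ≠ 0 := zetaPole_ne_zero_of_one_le (by simpa using hx.1)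
    have h1 : ContinuousAt (deriv zetaPole) ((x : ℝ) : ℂ) :=
      ((zetaPole_differentiable.analyticAt _).deriv).continuousAt
    have h2 : ContinuousAt zetaPole ((x : ℝ) : ℂ) := zetaPole_differentiable.continuous.continuousAt
    have h3 : ContinuousAt g ((x : ℝ) : ℂ) := h1.div h2 hne
    exact (ContinuousAt.comp (f := fun x : ℝ => ((x : ℝ) : ℂ)) (g := g) h3
      Complex.continuous_ofReal.continuousAt).continuousWithinAt
  obtain ⟨M, hM⟩ := isCompact_Icc.exists_bound_of_continuousOn hgc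
  refine ⟨M, fun b hb hb1 => ?_⟩
  have hz1 : 1 < (((1 + b : ℝ)) : ℂ).re := by simp [hb]
  have h2 := neg_logDeriv_zetaPole hz1
  have h3 := hM (1 + b) ⟨by linarith, by linarith⟩
  have e : LSeries (fun n => (ArithmeticFunction.vonMangoldt n : ℂ)) ((1 + b : ℝ) : ℂ) - ((1 / b : ℝ) : ℂ) =
      -g (((1 + b : ℝ)) : ℂ) := by
    rw [hg]
    have e1 : ((1 / b : ℝ) : ℂ) = 1 / ((((1 + b : ℝ)) : ℂ) - 1) := by
      push_cast
      congr 1
      ring
    rw [e1]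
    simp only [div_eq_mul_inv, one_mul] at h2 ⊢
    linear_combination -h2
  rw [e, norm_neg]
  exact h3

theorem lowA : ∃ C : ℝ, 1 ≤ C ∧ ∀ b : ℝ, 0 < b → b ≤ 1 →
    (∀ t : ℝ, ‖deriv riemannZeta (((1 + b : ℝ) : ℂ) + t * I) / riemannZeta (((1 + b : ℝ) : ℂ) + t * I)‖ ≤
      1 / b + C) ∧
    1 / b - C ≤ -(deriv riemannZeta ((1 + b : ℝ) : ℂ) / riemannZeta ((1 + b : ℝ) : ℂ)).re ∧
    (∀ t : ℝ, b ≤ C * ‖riemannZeta (((1 + b : ℝ) : ℂ) + t * I)‖) := by
  obtain ⟨M, hM⟩ := real_pt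
  refine ⟨max M 18, le_trans (by norm_num) (le_max_right _ _), fun b hb hb1 => ⟨?_, ?_, ?_⟩⟩
  · intro t
    have h1 := lbd hb t
    rw [lser hb t, norm_neg] at h1
    refine h1.trans ?_
    have h2 := hM b hb hb1
    have h3 : ‖LSeries (fun n => (ArithmeticFunction.vonMangoldt n : ℂ)) ((1 + b : ℝ) : ℂ)‖ ≤
        ‖((1 / b : ℝ) : ℂ)‖ + ‖LSeries (fun n => (ArithmeticFunction.vonMangoldt n : ℂ)) ((1 + b : ℝ) : ℂ) -
          ((1 / b : ℝ) : ℂ)‖ := by
      refine le_trans (le_of_eq ?_) (norm_add_le _ _)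
      congr 1
      ring
    have h4 : ‖((1 / b : ℝ) : ℂ)‖ = 1 / b := by
      rw [norm_real, Real.norm_of_nonneg (by positivity)]
    rw [h4] at h3
    linarith [le_max_left M 18]
  · have h2 := hM b hb hb1
    have e := lser hb 0
    have e0 : ((1 + b : ℝ) : ℂ) + ((0 : ℝ) : ℂ) * I = ((1 + b : ℝ) : ℂ) := by simp
    rw [e0] at e
    rw [e] at h2
    have h3 := (Complex.abs_re_le_norm _).trans h2
    rw [Complex.sub_re, Complex.neg_re, Complex.ofReal_re] at h3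
    have h4 := (abs_le.1 h3).1
    linarith [le_max_left M 18]
  · intro t
    refine (low hb hb1 t).trans ?_
    exact mul_le_mul_of_nonneg_right (le_max_right _ _) (norm_nonneg _)

end Pool.Agent.H76.LF
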