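import Mathlib
import Pool.Agent.H76.RP.ZcF

/-!
# Box: zeros in a window, and disjoint discs

PROOF of `box_sum`: the discs `|u - (1+it)| < r/2`, `t ∈ X`, are pairwise disjoint (`|s - t| ≥ r`), and contained in
the window (`Re u > 1 - r/2 > 1 - r`, `|Im u - t| < r/2 < 1`); `zc_sum` writes `zc (r/2) t` as a sum over a finset;
the sum over `t ∈ X` is the sum over the disjoint union (`Finset.sum_biUnion`), a subset of the finite set of the zeros
in the window (`win_finite`: `Pool.Agent.H6.zeros_finite (2 + |A| + |B|)`, see the private `low_finite` in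
`RP/ZcF.lean`).  About 100 lines.
-/

set_option autoImplicit false

open Complex

namespace Pool.Agent.H76.LF

open Pool.Agent.H76.CR Pool.Agent.H76.RP

/-- the number, with multiplicity, of the zeros `u` of `ζ` with `Re u > 1 - r`, `A ≤ Im u ≤ B` -/
noncomputable def zwin (r A B : ℝ) : ℕ :=
  ∑ᶠ u ∈ {u : ℂ | riemannZeta u = 0 ∧ 1 - r < u.re ∧ A ≤ u.im ∧ u.im ≤ B},
    analyticOrderNatAt riemannZeta u

private theorem win_finite {r : ℝ} (hr : r ≤ 1) (A B : ℝ) :
    {u : ℂ | riemannZeta u = 0 ∧ 1 - r < u.re ∧ A ≤ u.im ∧ u.im ≤ B}.Finite := by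
  refine (Pool.Agent.H6.zeros_finite (2 + (|A| + |B|))).subset ?_
  rintro u ⟨hu, h1, h2, h3⟩
  have hne : u ≠ 1 := by
    rintro rfl
    exact riemannZeta_one_ne_zero hu
  refine ⟨?_, (zetaPole_eq_zero_iff hne).2 hu⟩
  rw [Metric.mem_closedBall, dist_eq_norm]
  have h4 := Complex.norm_le_abs_re_add_abs_im (u - 2)
  have h5 : |(u - 2).re| ≤ 2 := by
    have e : (u - 2).re = u.re - 2 := by simp
    have := re_lt_one hu
    rw [e, abs_le]
    constructor <;> linarith
  have h6 : |(u - 2).im| ≤ |A| + |B| := by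
    have e : (u - 2).im = u.im := by simp
    rw [e, abs_le]
    have hA := neg_abs_le A
    have hB := le_abs_self B
    have hA0 := abs_nonneg A
    have hB0 := abs_nonneg B
    constructor <;> linarith
  linarith

private theorem zwin_sum {r : ℝ} (hr : r ≤ 1) (A B : ℝ) :
    zwin r A B = ∑ u ∈ (win_finite hr A B).toFinset, analyticOrderNatAt riemannZeta u :=
  finsum_mem_eq_finite_toFinset_sum _ (win_finite hr A B)

private theorem disc_bounds {r t : ℝ} {u : ℂ} (hu : u ∈ disc r t) :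
    riemannZeta u = 0 ∧ |u.re - 1| < r ∧ |u.im - t| < r := by
  obtain ⟨hu0, hun⟩ := hu
  have hre : |(u - (1 + (t : ℂ) * I)).re| < r := lt_of_le_of_lt (abs_re_le_norm _) hun
  have him : |(u - (1 + (t : ℂ) * I)).im| < r := lt_of_le_of_lt (abs_im_le_norm _) hun
  have e1 : (u - (1 + (t : ℂ) * I)).re = u.re - 1 := by simp
  have e2 : (u - (1 + (t : ℂ) * I)).im = u.im - t := by simp
  rw [e1] at hre
  rw [e2] at him
  exact ⟨hu0, hre, him⟩

theorem box_sum {r A B : ℝ} (hr : 0 < r) (hr1 : r ≤ 1) (X : Finset ℝ)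
    (hX : ∀ s ∈ X, ∀ t ∈ X, s ≠ t → r ≤ |s - t|) (hAB : ∀ t ∈ X, A ≤ t ∧ t ≤ B) :
    ∑ t ∈ X, zc (r / 2) t ≤ zwin r (A - 1) (B + 1) := by
  classical
  have hr2 : r / 2 ≤ 1 := by linarith
  have h1 : ∑ t ∈ X, zc (r / 2) t =
      ∑ t ∈ X, ∑ u ∈ (disc_finite hr2 t).toFinset, analyticOrderNatAt riemannZeta u :=
    Finset.sum_congr rfl fun t _ => zc_sum hr2 t
  have hdis : Set.PairwiseDisjoint (X : Set ℝ) (fun t => (disc_finite hr2 t).toFinset) := by
    intro s hs t ht hst
    rw [Function.onFun, Finset.disjoint_left]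
    intro u hus hut
    rw [Set.Finite.mem_toFinset] at hus hut
    have a1 := (disc_bounds hus).2.2
    have a2 := (disc_bounds hut).2.2
    have a3 := hX s hs t ht hst
    have a4 : |s - t| ≤ |u.im - t| + |u.im - s| := by
      have := abs_add_le (u.im - t) (-(u.im - s))
      rw [abs_neg] at this
      have e : u.im - t + -(u.im - s) = s - t := by ring
      rwa [e] at this
    linarith
  rw [h1, ← Finset.sum_biUnion hdis, zwin_sum hr1]
  refine Finset.sum_le_sum_of_subset ?_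
  intro u hu
  rw [Finset.mem_biUnion] at hu
  obtain ⟨t, ht, hut⟩ := hu
  rw [Set.Finite.mem_toFinset] at hut
  obtain ⟨hu0, hre, him⟩ := disc_bounds hut
  obtain ⟨hA, hB⟩ := hAB t ht
  rw [abs_lt] at hre him
  rw [Set.Finite.mem_toFinset]
  refine ⟨hu0, ?_, ?_, ?_⟩ <;> linarith [hre.1, him.1, him.2]

/-- distinct zeros in the window are counted -/
theorem card_le_win {r A B : ℝ} (hr1 : r ≤ 1) (S : Finset ℂ)
    (hS : ∀ ρ ∈ S, riemannZeta ρ = 0 ∧ 1 - r < ρ.re ∧ A ≤ ρ.im ∧ ρ.im ≤ B) :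
    S.card ≤ zwin r A B := by
  rw [zwin_sum hr1]
  calc S.card = ∑ _u ∈ S, 1 := by simp
    _ ≤ ∑ u ∈ S, analyticOrderNatAt riemannZeta u :=
        Finset.sum_le_sum fun u hu => ord_pos (hS u hu).1
    _ ≤ ∑ u ∈ (win_finite hr1 A B).toFinset, analyticOrderNatAt riemannZeta u := by
        refine Finset.sum_le_sum_of_subset ?_
        intro u hu
        rw [Set.Finite.mem_toFinset]
        exact hS u hu

end Pool.Agent.H76.LF
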