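import Mathlib

/-!
# Sup: an analytic function with two bounds for its Taylor coefficients

PROOF: `H s = ∑' k, (iteratedDeriv k H p / k!) (s - p)^k` for `|s - p| < 2a`
(`Complex.hasSum_taylorSeries_on_ball` or `Complex.taylorSeries_eq_on_ball`), and `|s - p| ≤ a (1 + 1/k0)`.
For `k < k0`: term `≤ M/a^(k+1) a^k (1+1/k0)^k ≤ (M/a) (1+1/k0)^k0 ≤ 3 M/a` (`(1 + 1/k0)^k0 ≤ exp 1 ≤ 3`).
For `k ≥ k0`: term `≤ B/(2a)^(k+1) a^k (1+1/k0)^k ≤ (B/(2a)) (3/4)^k` since `(1+1/k0)/2 ≤ 3/4` (`k0 ≥ 2`); the sum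
over `k ≥ k0` is `≤ (B/(2a)) 4 (3/4)^k0 ≤ 2/a` by `B (3/4)^k0 ≤ 1`.  About 120 lines, Mathlib only.
-/

set_option autoImplicit false

open Complex

namespace Pool.Agent.H76.LF

/-- `(1 + 1/k)^k ≤ 3` -/
private theorem sup_e {k0 : ℕ} (hk0 : 2 ≤ k0) : (1 + 1 / (k0 : ℝ)) ^ k0 ≤ 3 := by
  have hk : (0 : ℝ) < k0 := by
    have : 0 < k0 := by omega
    exact_mod_cast this
  have h1 : 1 + 1 / (k0 : ℝ) ≤ Real.exp (1 / k0) := by
    have := Real.add_one_le_exp (1 / (k0 : ℝ))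
    linarith
  have h2 : (1 + 1 / (k0 : ℝ)) ^ k0 ≤ Real.exp (1 / k0) ^ k0 := pow_le_pow_left₀ (by positivity) h1 _
  rw [← Real.exp_nat_mul, mul_one_div_cancel hk.ne'] at h2
  have := Real.exp_one_lt_d9
  linarith

theorem supH {H : ℂ → ℂ} {p : ℂ} {a B M : ℝ} {k0 : ℕ} (ha : 0 < a)
    (hH : DifferentiableOn ℂ H (Metric.ball p (2 * a))) (hB : 0 ≤ B) (hM : 0 ≤ M) (hk0 : 2 ≤ k0)
    (hBk : B * (3 / 4) ^ k0 ≤ 1)
    (h1 : ∀ k : ℕ, ‖iteratedDeriv k H p / (k.factorial : ℂ)‖ ≤ M / a ^ (k + 1))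
    (h2 : ∀ k : ℕ, ‖iteratedDeriv k H p / (k.factorial : ℂ)‖ ≤ B / (2 * a) ^ (k + 1)) {s : ℂ}
    (hs : ‖s - p‖ ≤ a * (1 + 1 / k0)) : ‖H s‖ ≤ (3 * k0 * M + 2) / a := by
  have hk : (2 : ℝ) ≤ k0 := by exact_mod_cast hk0
  have hk1 : 1 / (k0 : ℝ) ≤ 1 / 2 := one_div_le_one_div_of_le (by norm_num) hk
  have hk2 : 0 < 1 / (k0 : ℝ) := by positivity
  have hv : a * (1 + 1 / (k0 : ℝ)) ≤ a * (3 / 2) := mul_le_mul_of_nonneg_left (by linarith) ha.le
  have hball : s ∈ Metric.ball p (2 * a) := by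
    rw [Metric.mem_ball, dist_eq_norm]
    linarith
  have hsum := Complex.hasSum_taylorSeries_on_ball hH hball
  have hterm : ∀ k : ℕ, ‖((k.factorial : ℂ))⁻¹ • (s - p) ^ k • iteratedDeriv k H p‖ =
      ‖iteratedDeriv k H p / (k.factorial : ℂ)‖ * ‖s - p‖ ^ k := by
    intro k
    rw [smul_eq_mul, smul_eq_mul, norm_mul, norm_mul, norm_pow, norm_div, norm_inv]
    ring
  have hpow : ∀ k : ℕ, ‖s - p‖ ^ k ≤ (a * (1 + 1 / (k0 : ℝ))) ^ k := fun k =>
    pow_le_pow_left₀ (norm_nonneg _) hs k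
  set g : ℕ → ℝ := fun k => if k < k0 then 3 * M / a else B / (2 * a) * (3 / 4) ^ k with hg
  have hbound : ∀ k : ℕ, ‖((k.factorial : ℂ))⁻¹ • (s - p) ^ k • iteratedDeriv k H p‖ ≤ g k := by
    intro k
    rw [hterm]
    simp only [hg]
    split_ifs with hlt
    · have e1 : ‖iteratedDeriv k H p / (k.factorial : ℂ)‖ * ‖s - p‖ ^ k ≤
          M / a ^ (k + 1) * (a * (1 + 1 / (k0 : ℝ))) ^ k :=
        mul_le_mul (h1 k) (hpow k) (by positivity) (by positivity)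
      have e2 : M / a ^ (k + 1) * (a * (1 + 1 / (k0 : ℝ))) ^ k = M / a * (1 + 1 / (k0 : ℝ)) ^ k := by
        rw [mul_pow, pow_succ]
        field_simp
      have e3 : (1 + 1 / (k0 : ℝ)) ^ k ≤ 3 :=
        (pow_le_pow_right₀ (by linarith) hlt.le).trans (sup_e hk0)
      have e4 : M / a * (1 + 1 / (k0 : ℝ)) ^ k ≤ M / a * 3 := mul_le_mul_of_nonneg_left e3 (by positivity)
      calc _ ≤ M / a * 3 := by rw [← e2] at e4; exact e1.trans e4
        _ = 3 * M / a := by ring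
    · have e1 : ‖iteratedDeriv k H p / (k.factorial : ℂ)‖ * ‖s - p‖ ^ k ≤
          B / (2 * a) ^ (k + 1) * (a * (1 + 1 / (k0 : ℝ))) ^ k :=
        mul_le_mul (h2 k) (hpow k) (by positivity) (by positivity)
      have e2 : B / (2 * a) ^ (k + 1) * (a * (1 + 1 / (k0 : ℝ))) ^ k =
          B / (2 * a) * ((1 + 1 / (k0 : ℝ)) / 2) ^ k := by
        rw [mul_pow, pow_succ, mul_pow, div_pow]
        field_simp
        ring
      have e3 : ((1 + 1 / (k0 : ℝ)) / 2) ^ k ≤ (3 / 4) ^ k :=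
        pow_le_pow_left₀ (by positivity) (by linarith) k
      have e4 : B / (2 * a) * ((1 + 1 / (k0 : ℝ)) / 2) ^ k ≤ B / (2 * a) * (3 / 4) ^ k :=
        mul_le_mul_of_nonneg_left e3 (by positivity)
      rw [← e2] at e4
      exact e1.trans e4
  have hgsum : HasSum g (3 * k0 * M / a + B / (2 * a) * (3 / 4) ^ k0 * 4) := by
    rw [← hasSum_nat_add_iff' k0]
    have e1 : ∑ i ∈ Finset.range k0, g i = 3 * k0 * M / a := by
      have : ∀ i ∈ Finset.range k0, g i = 3 * M / a := by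
        intro i hi
        simp only [hg]
        rw [if_pos (Finset.mem_range.1 hi)]
      rw [Finset.sum_congr rfl this, Finset.sum_const, Finset.card_range, nsmul_eq_mul]
      ring
    rw [e1, add_sub_cancel_left]
    have e2 : (fun n => g (n + k0)) = fun n => B / (2 * a) * (3 / 4) ^ k0 * (3 / 4) ^ n := by
      funext n
      simp only [hg]
      rw [if_neg (by omega), pow_add]
      ring
    rw [e2]
    refine HasSum.mul_left _ ?_
    have := hasSum_geometric_of_lt_one (r := (3 / 4 : ℝ)) (by norm_num) (by norm_num)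
    norm_num at this
    exact this
  have h3 := tsum_of_norm_bounded hgsum hbound
  rw [hsum.tsum_eq] at h3
  refine h3.trans ?_
  have e5 : B / (2 * a) * (3 / 4) ^ k0 * 4 = 2 * (B * (3 / 4) ^ k0) / a := by
    field_simp
    ring
  rw [e5, ← add_div]
  apply div_le_div_of_nonneg_right _ ha.le
  linarith

end Pool.Agent.H76.LF
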