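import Mathlib
import Pool.Agent.H76.LF.Defs
import Pool.Agent.H52.RK.DkLocalG

/-!
# Tay: the Taylor coefficients of the regular part of `ζ'/ζ` at `1 + a + it`

PROOF: `exists_HG` (`H52/RK/HlocG.lean`, `η = 1/2`, radius `r = 2a`, `Λ = G`: `(1 + 1/2) (2a) = 3a`) gives `S'`,
`H'` with `zetaPole'/zetaPole (z) = ∑_(u ∈ S') zord u/(z - u) + H' z` on `ball (pt a t) ((5/4) (2a))`.
Put `S = S'.filter (‖pt a t - u‖ < 2a)` and
`H z = H' z - 1/(z - 1) + ∑_(u ∈ S' \ S) zord u/(z - u)`.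
`1` is not in `ball (pt a t) (2a)` because `|pt a t - 1| ≥ |t| ≥ 2a`; the `u ∈ S' \ S` are not in it either, so
`H` is differentiable there; `ζ z = zetaPole z/(z - 1)` near every `z ≠ 1`, so `ζ'/ζ = zetaPole'/zetaPole - 1/(z-1)`
(see `CR/ZFacts.lean`: `zetaPole_eq_zero_iff`, `zord_eq`; `Pool.Agent.H6` facts used in `DkLocalG.lean`).
The last equality: as in `DkLocalG.lean` (`hev`, `hder`): near `pt a t`, `LSeries Λ = -ζ'/ζ` and `Dk_eq`
(`CR/DerivL.lean`); `iteratedDeriv k` of `1/(z-u)` at `pt a t` is `(-1)^k k!/(pt a t - u)^(k+1)`.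
The bound of the coefficients is then `Dk_localG` (same set `S`) or the computation there.  About 200 lines.
-/

set_option autoImplicit false

open Complex

namespace Pool.Agent.H76.LF

open Pool.Agent.H76.CR Pool.Agent.H76.RP Pool.Agent.H76.GL

private lemma iter_invT (k : ℕ) (u s : ℂ) :
    iteratedDeriv k (fun z : ℂ => (z - u)⁻¹) s = (-1) ^ k * (k.factorial : ℂ) / (s - u) ^ (k + 1) := by
  have h := iteratedDeriv_comp_sub_const k (fun z : ℂ => z⁻¹) u
  rw [h]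
  have h2 : iteratedDeriv k (fun z : ℂ => z⁻¹) (s - u)
      = (-1) ^ k * (k.factorial : ℂ) * (s - u) ^ (-1 - k : ℤ) := by
    rw [iteratedDeriv_eq_iterate]
    exact iter_deriv_inv k (s - u)
  show iteratedDeriv k (fun z : ℂ => z⁻¹) (s - u) = _
  rw [h2, div_eq_mul_inv]
  congr 1
  rw [show (-1 - k : ℤ) = -((k + 1 : ℕ) : ℤ) by push_cast; ring, zpow_neg, zpow_natCast]

private lemma contDiffAt_invT {u s : ℂ} (h : s ≠ u) (k : ℕ) :
    ContDiffAt ℂ k (fun z : ℂ => (z - u)⁻¹) s :=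
  (contDiffAt_id.sub contDiffAt_const).inv (sub_ne_zero.2 h)

private lemma logDeriv_zp {z : ℂ} (hz1 : z ≠ 1) (hz : riemannZeta z ≠ 0) :
    deriv riemannZeta z / riemannZeta z = deriv Pool.Agent.H6.zetaPole z / Pool.Agent.H6.zetaPole z - (z - 1)⁻¹ := by
  have h1 : Pool.Agent.H6.zetaPole =ᶠ[nhds z] fun s => (s - 1) * riemannZeta s := by
    filter_upwards [isOpen_compl_singleton.mem_nhds hz1] with w hw
    exact Pool.Agent.H6.zetaPole_of_ne hw
  have h2 : deriv Pool.Agent.H6.zetaPole z = riemannZeta z + (z - 1) * deriv riemannZeta z := by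
    rw [h1.deriv_eq]
    have h3 : HasDerivAt (fun s : ℂ => s - 1) 1 z := (hasDerivAt_id z).sub_const 1
    have h4 : HasDerivAt riemannZeta (deriv riemannZeta z) z := (differentiableAt_riemannZeta hz1).hasDerivAt
    have h5 := (h3.mul h4).deriv
    rw [one_mul] at h5
    exact h5
  rw [h2, Pool.Agent.H6.zetaPole_of_ne hz1]
  have h6 : z - 1 ≠ 0 := sub_ne_zero.2 hz1
  field_simp
  ring

theorem tay : ∃ C : ℝ, 1 ≤ C ∧ ∀ a t Λ : ℝ, 0 < a → a ≤ 1 / 6 → 2 * a ≤ |t| → Gr a t Λ →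
    ∃ (S : Finset ℂ) (H : ℂ → ℂ),
      (∀ u : ℂ, u ∈ S ↔ (riemannZeta u = 0 ∧ ‖pt a t - u‖ < 2 * a)) ∧
      DifferentiableOn ℂ H (Metric.ball (pt a t) (2 * a)) ∧
      (∀ z ∈ Metric.ball (pt a t) (2 * a), riemannZeta z ≠ 0 →
        deriv riemannZeta z / riemannZeta z =
          ∑ u ∈ S, (analyticOrderNatAt riemannZeta u : ℂ) / (z - u) + H z) ∧
      (∀ k : ℕ, ‖iteratedDeriv k H (pt a t) / (k.factorial : ℂ)‖ ≤ C * Λ / (2 * a) ^ (k + 1)) ∧
      (∀ k : ℕ, iteratedDeriv k H (pt a t) / (k.factorial : ℂ) = (-1) ^ (k + 1) *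
        (Dk a k t + ∑ u ∈ S, (analyticOrderNatAt riemannZeta u : ℂ) / (pt a t - u) ^ (k + 1))) := by
  classical
  obtain ⟨C0, hC0, hHV⟩ := Pool.Agent.H52.RK.exists_HG (η := 1 / 2) (by norm_num)
  obtain ⟨C1, hC1, hDk⟩ := Pool.Agent.H52.RK.Dk_localG (η := 1 / 2) (by norm_num)
  refine ⟨max 1 C1, le_max_left _ _, fun a t Λ ha ha6 hat hG => ?_⟩
  have hΛ : 1 ≤ Λ := hG.1
  have hr : 0 < 2 * a := by linarith
  have hgrow : ∀ z ∈ Metric.closedBall (pt a t) ((1 + 1 / 2) * (2 * a)),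
      ‖Pool.Agent.H6.zetaPole z‖ ≤ Real.exp Λ * ‖Pool.Agent.H6.zetaPole (pt a t)‖ := by
    intro z hz
    refine hG.2 z ?_
    rw [show (3 : ℝ) * a = (1 + 1 / 2) * (2 * a) by ring]
    exact hz
  obtain ⟨S', H', hS', hord, hcount, hHd, hHb, hHeq⟩ := hHV a (2 * a) t Λ ha hr (by linarith) hgrow
  obtain ⟨S1, hS1, -, hS1b⟩ := hDk a (2 * a) t Λ ha (by linarith) hat hΛ hgrow
  set R0 : ℝ := (1 + 1 / 2 / 2) * (2 * a) with hR0def
  have hrR0 : 2 * a < R0 := by
    rw [hR0def]; linarith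
  set s0 : ℂ := pt a t with hs0
  have hs0re : s0.re = 1 + a := by simp [hs0, pt]
  have hs0im : s0.im = t := by simp [hs0, pt]
  have h01 : 2 * a ≤ ‖s0 - 1‖ := by
    have h2 := Complex.abs_im_le_norm (s0 - 1)
    simp only [Complex.sub_im, Complex.one_im, sub_zero, hs0im] at h2
    linarith
  have hne1 : ∀ u : ℂ, ‖s0 - u‖ < 2 * a → u ≠ 1 := by
    rintro u hu rfl
    linarith
  set S : Finset ℂ := S'.filter (fun u => ‖s0 - u‖ < 2 * a) with hS
  set T : Finset ℂ := S'.filter (fun u => ¬ ‖s0 - u‖ < 2 * a) with hT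
  have hmemP : ∀ u, u ∈ S ↔ (‖s0 - u‖ < 2 * a ∧ Pool.Agent.H6.zetaPole u = 0) := by
    intro u
    rw [hS, Finset.mem_filter, hS']
    constructor
    · rintro ⟨⟨h1, h2⟩, h3⟩
      exact ⟨h3, h2⟩
    · rintro ⟨h3, h2⟩
      refine ⟨⟨?_, h2⟩, h3⟩
      rw [Metric.mem_closedBall, dist_eq_norm, norm_sub_rev]
      linarith
  have hSS1 : S1 = S := by
    ext u
    rw [hS1, hmemP]
  have hmem : ∀ u : ℂ, u ∈ S ↔ (riemannZeta u = 0 ∧ ‖s0 - u‖ < 2 * a) := by
    intro u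
    rw [hmemP]
    constructor
    · rintro ⟨h1, h2⟩
      exact ⟨(zetaPole_eq_zero_iff (hne1 u h1)).1 h2, h1⟩
    · rintro ⟨h2, h1⟩
      exact ⟨h1, (zetaPole_eq_zero_iff (hne1 u h1)).2 h2⟩
  have hzo : ∀ u ∈ S, (Pool.Agent.H6.zord u : ℂ) = (analyticOrderNatAt riemannZeta u : ℂ) := by
    intro u hu
    rw [zord_eq (hne1 u ((hmem u).1 hu).2)]
  set H : ℂ → ℂ := fun z => (H' z - (z - 1)⁻¹) +
    ∑ u ∈ T, (Pool.Agent.H6.zord u : ℂ) * (z - u)⁻¹ with hH
  have hball1 : ∀ z ∈ Metric.ball s0 (2 * a), z ≠ 1 := by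
    intro z hz
    rw [Metric.mem_ball, dist_eq_norm, norm_sub_rev] at hz
    exact hne1 z hz
  have hballT : ∀ z ∈ Metric.ball s0 (2 * a), ∀ u ∈ T, z ≠ u := by
    rintro z hz u hu rfl
    rw [Metric.mem_ball, dist_eq_norm, norm_sub_rev] at hz
    exact (Finset.mem_filter.1 hu).2 hz
  have hHdiff : DifferentiableOn ℂ H (Metric.ball s0 (2 * a)) := by
    intro z hz
    have h1 : DifferentiableWithinAt ℂ H' (Metric.ball s0 (2 * a)) z :=
      (hHd.mono (Metric.ball_subset_ball hrR0.le)) z hz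
    have h2 : DifferentiableWithinAt ℂ (fun z : ℂ => (z - 1)⁻¹) (Metric.ball s0 (2 * a)) z :=
      DifferentiableAt.differentiableWithinAt (DifferentiableAt.inv
        (h := fun z : ℂ => z - 1) (by fun_prop) (sub_ne_zero.2 (hball1 z hz)))
    have h3 : DifferentiableWithinAt ℂ
        (fun z : ℂ => ∑ u ∈ T, (Pool.Agent.H6.zord u : ℂ) * (z - u)⁻¹) (Metric.ball s0 (2 * a)) z := by
      refine DifferentiableWithinAt.fun_sum fun u hu => ?_
      exact ((DifferentiableAt.inv (h := fun z : ℂ => z - u) (by fun_prop)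
        (sub_ne_zero.2 (hballT z hz u hu))).const_mul _).differentiableWithinAt
    exact (h1.sub h2).add h3
  have hform : ∀ z ∈ Metric.ball s0 (2 * a), riemannZeta z ≠ 0 →
      deriv riemannZeta z / riemannZeta z =
        ∑ u ∈ S, (analyticOrderNatAt riemannZeta u : ℂ) / (z - u) + H z := by
    intro z hz hz0
    have hz1 := hball1 z hz
    have hzP : Pool.Agent.H6.zetaPole z ≠ 0 := fun h => hz0 ((zetaPole_eq_zero_iff hz1).1 h)
    rw [logDeriv_zp hz1 hz0, hHeq z (Metric.ball_subset_ball hrR0.le hz) hzP,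
      ← Finset.sum_filter_add_sum_filter_not S' (fun u => ‖s0 - u‖ < 2 * a), ← hS, ← hT, hH]
    have h1 : ∑ u ∈ S, (Pool.Agent.H6.zord u : ℂ) / (z - u) =
        ∑ u ∈ S, (analyticOrderNatAt riemannZeta u : ℂ) / (z - u) :=
      Finset.sum_congr rfl fun u hu => by rw [hzo u hu]
    rw [h1]
    simp only [div_eq_mul_inv]
    ring
  have hcoef : ∀ k : ℕ, iteratedDeriv k H s0 / (k.factorial : ℂ) = (-1) ^ (k + 1) *
      (Dk a k t + ∑ u ∈ S, (analyticOrderNatAt riemannZeta u : ℂ) / (s0 - u) ^ (k + 1)) := by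
    intro k
    set F : ℂ → ℂ := LSeries (fun n => (ArithmeticFunction.vonMangoldt n : ℂ)) with hF
    have hzero : ∀ u ∈ S, s0 ≠ u := by
      intro u hu hcon
      have h1 := ((hmem u).1 hu).1
      rw [← hcon] at h1
      exact riemannZeta_ne_zero_of_one_le_re (by rw [hs0re]; linarith) h1
    have hev : F =ᶠ[nhds s0] fun z =>
        -(H z + ∑ u ∈ S, (analyticOrderNatAt riemannZeta u : ℂ) * (z - u)⁻¹) := by
      have o1 : {z : ℂ | 1 < z.re} ∈ nhds s0 :=
        (isOpen_lt continuous_const Complex.continuous_re).mem_nhds (by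
          show 1 < s0.re
          rw [hs0re]; linarith)
      filter_upwards [o1, Metric.ball_mem_nhds s0 hr] with z hz1 hz2
      have hz1' : 1 < z.re := hz1
      have h1 := hform z hz2 (riemannZeta_ne_zero_of_one_le_re hz1'.le)
      have h2 := ArithmeticFunction.LSeries_vonMangoldt_eq_deriv_riemannZeta_div hz1'
      rw [hF]
      change LSeries (fun n => (ArithmeticFunction.vonMangoldt n : ℂ)) z = _
      rw [h2, neg_div, h1]
      simp only [div_eq_mul_inv]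
      ring
    have hHc : ContDiffAt ℂ k H s0 :=
      ((hHdiff.analyticOnNhd Metric.isOpen_ball) s0 (Metric.mem_ball_self hr)).contDiffAt
    have hsum : ∀ u ∈ S, ContDiffAt ℂ k
        (fun z : ℂ => (analyticOrderNatAt riemannZeta u : ℂ) * (z - u)⁻¹) s0 := fun u hu =>
      contDiffAt_const.mul (contDiffAt_invT (hzero u hu) k)
    have hder : iteratedDeriv k F s0 = -(iteratedDeriv k H s0 +
        ∑ u ∈ S, (analyticOrderNatAt riemannZeta u : ℂ) *
          ((-1) ^ k * (k.factorial : ℂ) / (s0 - u) ^ (k + 1))) := by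
      rw [hev.iteratedDeriv_eq k, iteratedDeriv_fun_neg, iteratedDeriv_fun_add hHc (ContDiffAt.sum hsum),
        iteratedDeriv_fun_sum hsum]
      congr 2
      refine Finset.sum_congr rfl fun u hu => ?_
      rw [iteratedDeriv_const_mul_field, iter_invT]
    have hk0 : (k.factorial : ℂ) ≠ 0 := by exact_mod_cast k.factorial_ne_zero
    have hsq : ((-1 : ℂ)) ^ k * (-1) ^ k = 1 := by
      rw [← mul_pow]; norm_num
    have hDk' : Dk a k t = -((-1) ^ k * (iteratedDeriv k H s0 / (k.factorial : ℂ))) -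
        ∑ u ∈ S, (analyticOrderNatAt riemannZeta u : ℂ) / (s0 - u) ^ (k + 1) := by
      rw [Dk_eq ha k t, ← hs0, ← hF, hder, mul_neg, mul_add, Finset.mul_sum, neg_add, ← sub_eq_add_neg]
      congr 1
      · ring
      · refine Finset.sum_congr rfl fun u hu => ?_
        calc (-1 : ℂ) ^ k / (k.factorial : ℂ) *
              ((analyticOrderNatAt riemannZeta u : ℂ) * ((-1) ^ k * (k.factorial : ℂ) / (s0 - u) ^ (k + 1)))
            = ((-1 : ℂ) ^ k * (-1) ^ k) * ((k.factorial : ℂ) / (k.factorial : ℂ)) *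
              ((analyticOrderNatAt riemannZeta u : ℂ) / (s0 - u) ^ (k + 1)) := by ring
          _ = _ := by rw [hsq, div_self hk0]; ring
    rw [hDk', sub_add_cancel, pow_succ]
    have h7 : (-1 : ℂ) ^ k * -1 * -((-1) ^ k * (iteratedDeriv k H s0 / (k.factorial : ℂ))) =
        ((-1 : ℂ) ^ k * (-1) ^ k) * (iteratedDeriv k H s0 / (k.factorial : ℂ)) := by ring
    rw [h7, hsq, one_mul]
  refine ⟨S, H, hmem, hHdiff, hform, fun k => ?_, hcoef⟩
  rw [hcoef k, norm_mul, norm_pow, norm_neg, norm_one, one_pow, one_mul]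
  have h8 := hS1b k
  rw [hSS1, Finset.sum_congr rfl fun u hu => by rw [hzo u hu]] at h8
  refine h8.trans ?_
  have hP : 0 < (2 * a) ^ (k + 1) := by positivity
  gcongr
  exact le_max_right _ _

end Pool.Agent.H76.LF
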