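import Mathlib
import Pool.Agent.H76.LF.Tay
import Pool.Agent.H76.LF.Sup
import Pool.Agent.H76.RP.Dk0

/-!
# LocF: the local formula with error `k0 (1 + n)/a`

PROOF: `tay` gives `S`, `H`.  Coefficients: `|Dk a k t| ≤ ∑' dco a k n` (`norm_tsum_le_tsum_norm`,
`|n^(-it)| ≤ 1`, `dco_nonneg`, `summable_dco` of `CR/DerivL.lean`), `a^(k+1) ∑' dco a k n ≤ 1 + C0` (`dk0`), and
`|pt a t - u| ≥ a` for `u ∈ S` (`Re u < 1`), so with `n = zc r t ≥ ∑_(u ∈ S) ord u` (`zc_ge`, `S ⊆ disc (3a) t ⊆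
disc r t` as `|u - (1+it)| ≤ |u - pt a t| + a < 3a`): `|coefficient k| ≤ (1 + C0 + n)/a^(k+1)` and
`≤ C Λ/(2a)^(k+1)`.  `supH` with `M = 1 + C0 + n`, `B = C Λ`: `|H s| ≤ (3 k0 M + 2)/a`, `s ∈ ball (pt a t) (2a)` as
`1 + 1/k0 ≤ 3/2`.
Then `ζ'/ζ (s) = ∑_(u ∈ S) + H s` and `LZ r t s = ∑_(u ∈ disc r t)` (`LZ_sum`); the zeros `u ∈ disc r t` which are
not in `S` have `|pt a t - u| ≥ 2a`, so `|s - u| ≥ 2a - (3/2) a = a/2` and contribute at most `2 n/a`.
About 200 lines.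
-/

set_option autoImplicit false

open Complex

namespace Pool.Agent.H76.LF

open Pool.Agent.H76.CR Pool.Agent.H76.RP Pool.Agent.H76.GL

private theorem locf_term (k : ℕ) (a t : ℝ) (n : ℕ) :
    ‖(dco a k n : ℂ) * (n : ℂ) ^ (-(t * I))‖ ≤ dco a k n := by
  rcases Nat.eq_zero_or_pos n with rfl | hn
  · have h0 : dco a k 0 = 0 := by simp [dco]
    rw [h0]
    simp
  · rw [norm_mul, Complex.norm_real, Real.norm_eq_abs, abs_of_nonneg (dco_nonneg a k n),
      Complex.norm_natCast_cpow_of_pos hn]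
    have h1 : (-(t * I : ℂ)).re = 0 := by simp
    rw [h1, Real.rpow_zero, mul_one]

private theorem locf_Dk {a : ℝ} (ha : 0 < a) (k : ℕ) (t : ℝ) : ‖Dk a k t‖ ≤ ∑' n : ℕ, dco a k n :=
  tsum_of_norm_bounded (summable_dco ha k).hasSum (locf_term k a t)

private theorem locf_dist {a t : ℝ} (ha : 0 < a) {u : ℂ} (hu : riemannZeta u = 0) :
    a ≤ ‖pt a t - u‖ := by
  have h1 := re_lt_one hu
  have h2 := Complex.abs_re_le_norm (pt a t - u)
  have h3 : (pt a t - u).re = 1 + a - u.re := by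
    simp [pt]
  rw [h3] at h2
  have h4 := le_abs_self (1 + a - u.re)
  linarith

private theorem locf_pt {a t : ℝ} (ha : 0 < a) : ‖pt a t - (1 + t * I)‖ = a := by
  have h1 : pt a t - (1 + t * I) = ((a : ℝ) : ℂ) := by
    unfold pt
    push_cast
    ring
  rw [h1, Complex.norm_real, Real.norm_eq_abs, abs_of_pos ha]

private theorem locf_sum {S : Finset ℂ} {f : ℂ → ℂ} {b : ℝ} {n : ℕ} (hb : 0 ≤ b)
    (hf : ∀ u ∈ S, ‖f u‖ ≤ (analyticOrderNatAt riemannZeta u : ℝ) * b)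
    (hn : ∑ u ∈ S, analyticOrderNatAt riemannZeta u ≤ n) : ‖∑ u ∈ S, f u‖ ≤ n * b := by
  refine (norm_sum_le _ _).trans ((Finset.sum_le_sum hf).trans ?_)
  rw [← Finset.sum_mul]
  refine mul_le_mul_of_nonneg_right ?_ hb
  exact_mod_cast hn

theorem locF : ∃ r1 C : ℝ, 0 < r1 ∧ r1 ≤ 1 / 16 ∧ 1 ≤ C ∧ ∀ (a t Λ r : ℝ) (k0 : ℕ), 0 < a → a ≤ r1 →
    3 * a ≤ r → r ≤ 1 → 2 * a ≤ |t| → Gr a t Λ → 2 ≤ k0 → C * Λ * (3 / 4) ^ k0 ≤ 1 →
    ∀ s : ℂ, ‖s - pt a t‖ ≤ a * (1 + 1 / k0) → riemannZeta s ≠ 0 →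
      ‖deriv riemannZeta s / riemannZeta s - LZ r t s‖ ≤ C * k0 * (1 + zc r t) / a := by
  obtain ⟨C1, hC1, htay⟩ := tay
  obtain ⟨r1, C0, hr1, hr16, hC0, hdk⟩ := dk0
  refine ⟨r1, C1 + 4 + 3 * C0, hr1, hr16, by linarith, ?_⟩
  intro a t Λ r k0 ha har hr3 hr hat hG hk0 hCk s hs hζ
  obtain ⟨S, H, hS, hH, hform, hc2, hc1⟩ := htay a t Λ ha (by linarith) hat hG
  have hΛ : 1 ≤ Λ := hG.1
  set n : ℕ := zc r t with hn
  have hn0 : (0 : ℝ) ≤ n := Nat.cast_nonneg n
  have hk0' : (2 : ℝ) ≤ k0 := by exact_mod_cast hk0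
  have hSd : ∀ u ∈ S, u ∈ disc r t := by
    intro u hu
    obtain ⟨hu0, hu1⟩ := (hS u).1 hu
    refine ⟨hu0, ?_⟩
    have h1 : u - (1 + t * I) = (pt a t - (1 + t * I)) - (pt a t - u) := by ring
    rw [h1]
    refine (norm_sub_le _ _).trans_lt ?_
    rw [locf_pt ha]
    linarith
  have hSn : ∑ u ∈ S, analyticOrderNatAt riemannZeta u ≤ n := zc_ge hr t S hSd
  have hp34 : (0 : ℝ) < (3 / 4) ^ k0 := by positivity
  -- the bound of the regular part
  have hHs : ‖H s‖ ≤ (3 * k0 * (1 + C0 + n) + 2) / a := by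
    refine supH ha hH (B := C1 * Λ) (by nlinarith) (by linarith) hk0 ?_ ?_ hc2 hs
    · refine le_trans ?_ hCk
      refine mul_le_mul_of_nonneg_right ?_ hp34.le
      nlinarith
    · intro k
      have hak : (0 : ℝ) < a ^ (k + 1) := by positivity
      rw [hc1 k, norm_mul, norm_pow, norm_neg, norm_one, one_pow, one_mul]
      refine (norm_add_le _ _).trans ?_
      have h1 : ‖Dk a k t‖ ≤ (1 + C0) / a ^ (k + 1) := by
        refine (locf_Dk ha k t).trans ?_
        rw [le_div_iff₀ hak, mul_comm]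
        have h2 := (abs_le.1 (hdk a k ha har)).2
        have h3 : C0 / 2 ^ k ≤ C0 := by
          apply div_le_self (by linarith)
          exact one_le_pow₀ (by norm_num)
        linarith
      have h2 : ‖∑ u ∈ S, (analyticOrderNatAt riemannZeta u : ℂ) / (pt a t - u) ^ (k + 1)‖ ≤
          n * (1 / a ^ (k + 1)) := by
        refine locf_sum (by positivity) (fun u hu => ?_) hSn
        rw [norm_div, norm_pow, Complex.norm_natCast, div_eq_mul_one_div]
        refine mul_le_mul_of_nonneg_left ?_ (Nat.cast_nonneg _)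
        refine one_div_le_one_div_of_le hak ?_
        exact pow_le_pow_left₀ ha.le (locf_dist ha ((hS u).1 hu).1) _
      refine (add_le_add h1 h2).trans (le_of_eq ?_)
      field_simp
  -- the other zeros
  have hs2 : ‖s - pt a t‖ ≤ 3 / 2 * a := by
    refine hs.trans ?_
    have h1 : 1 / (k0 : ℝ) ≤ 1 / 2 := one_div_le_one_div_of_le (by norm_num) hk0'
    nlinarith
  have hball : s ∈ Metric.ball (pt a t) (2 * a) := by
    rw [Metric.mem_ball, dist_eq_norm]
    linarith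
  have hSD : S ⊆ (disc_finite hr t).toFinset := by
    intro u hu
    rw [Set.Finite.mem_toFinset]
    exact hSd u hu
  have hDn : ∑ u ∈ (disc_finite hr t).toFinset \ S, analyticOrderNatAt riemannZeta u ≤ n := by
    refine zc_ge hr t _ fun u hu => ?_
    have h1 := (Finset.mem_sdiff.1 hu).1
    rw [Set.Finite.mem_toFinset] at h1
    exact h1
  have hrest : ‖∑ u ∈ (disc_finite hr t).toFinset \ S,
      (analyticOrderNatAt riemannZeta u : ℂ) / (s - u)‖ ≤ n * (2 / a) := by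
    refine locf_sum (by positivity) (fun u hu => ?_) hDn
    obtain ⟨h1, h2⟩ := Finset.mem_sdiff.1 hu
    rw [Set.Finite.mem_toFinset] at h1
    have h3 : 2 * a ≤ ‖pt a t - u‖ := by
      by_contra h4
      exact h2 ((hS u).2 ⟨h1.1, not_le.1 h4⟩)
    have h4 : ‖pt a t - u‖ ≤ ‖s - u‖ + ‖s - pt a t‖ := by
      have h5 : pt a t - u = (s - u) - (s - pt a t) := by ring
      rw [h5]
      exact norm_sub_le _ _
    have h5 : a / 2 ≤ ‖s - u‖ := by linarith
    rw [norm_div, Complex.norm_natCast, div_eq_mul_one_div]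
    refine mul_le_mul_of_nonneg_left ?_ (Nat.cast_nonneg _)
    refine (one_div_le_one_div_of_le (by positivity) h5).trans (le_of_eq ?_)
    field_simp
  have hdec : deriv riemannZeta s / riemannZeta s - LZ r t s =
      H s - ∑ u ∈ (disc_finite hr t).toFinset \ S,
        (analyticOrderNatAt riemannZeta u : ℂ) / (s - u) := by
    rw [hform s hball hζ, LZ_sum hr, ← Finset.sum_sdiff hSD]
    ring
  rw [hdec]
  refine (norm_sub_le _ _).trans ((add_le_add hHs hrest).trans ?_)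
  have h1 : (3 * k0 * (1 + C0 + n) + 2) / a + n * (2 / a) =
      (3 * k0 * (1 + C0 + n) + 2 + 2 * n) / a := by
    field_simp
  rw [h1]
  apply div_le_div_of_nonneg_right _ ha.le
  have h2 : (3 : ℝ) * k0 * (1 + C0 + n) ≤ 3 * k0 * ((1 + C0) * (1 + n)) := by
    refine mul_le_mul_of_nonneg_left ?_ (by positivity)
    nlinarith
  have h3 : (2 : ℝ) + 2 * n ≤ k0 * (1 + n) := by nlinarith
  have h4 : (0 : ℝ) ≤ C1 * k0 * (1 + n) := by positivity
  nlinarith

end Pool.Agent.H76.LF
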