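import Mathlib
import Pool.Agent.H76.LF.LocF
import Pool.Agent.H76.LF.Low
import Pool.Agent.H21.GX.Simp

/-!
# MainF: the local formula for tame heights

PROOF: put `t' = s.im`, `b = s.re - 1`, `L = log (2 + E)`, `a = r0 r` with a small absolute constant `r0 ≤ r1/8`.
`|t' - t| ≤ r/4`, so `Tame (r/2) E t'` (triangle inequality) and, by `grT` (`H76/GL/GrT.lean`), `Gr a t' Λ` with
`Λ = CT (E + log (1/a))`.  `tame_abs` (`H21/GX/Simp.lean`): `|t| > r`, so `|t'| ≥ 3r/4 ≥ 2a`.
`k0 = ⌈4 log (C Λ)⌉₊ + 2`, so that `C Λ (3/4)^k0 ≤ 1` (`log (4/3) ≥ 1/4`) and `k0 ≤ C7 L`.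
Case `b ≤ 2a`: `|s - pt a t'| = |b - a| ≤ a (1 + 1/k0)` (as `b ≥ -c r/L ≥ -a/k0` for small `c`) and `locF` with
radius `r/2` at `t'`: `|ζ'/ζ(s) - LZ (r/2) t' s| ≤ C k0 (1 + zc (r/2) t')/a`; `disc (r/2) t' ⊆ disc r t` (so
`zc (r/2) t' ≤ zc r t`), and a zero `u` in `disc r t` but not in `disc (r/2) t'` has
`|s - u| ≥ r/2 - |b| ≥ r/4` (`|b| ≤ r/4`): together they contribute at most `4 zc r t/r` (`LZ_sum`).
Case `b > 2a`: `|ζ'/ζ(s)| ≤ 1/b + C ≤ C/a` (`lowA`) and `|LZ r t s| ≤ zc r t/b` (`|s - u| ≥ Re (s-u) ≥ b`).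
-/

set_option autoImplicit false

open Complex

namespace Pool.Agent.H76.LF

open Pool.Agent.H76.CR Pool.Agent.H76.RP Pool.Agent.H76.GL

private theorem sum_far (S : Finset ℂ) (s : ℂ) {d : ℝ} (hd : 0 < d) (h : ∀ u ∈ S, d ≤ ‖s - u‖) :
    ‖∑ u ∈ S, (analyticOrderNatAt riemannZeta u : ℂ) / (s - u)‖ ≤
      ((∑ u ∈ S, analyticOrderNatAt riemannZeta u : ℕ) : ℝ) / d := by
  rw [Nat.cast_sum, Finset.sum_div]
  refine norm_sum_le_of_le _ fun u hu => ?_
  rw [norm_div, Complex.norm_natCast]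
  have h1 := h u hu
  gcongr

/-- the constants -/
private theorem consts {r0 CT C1 : ℝ} (hr0 : 0 < r0) (hr0' : r0 ≤ 1) (hCT : 1 ≤ CT) (hC1 : 1 ≤ C1) :
    ∃ C7 : ℝ, 1 ≤ C7 ∧ ∀ (r E : ℝ), 0 < r → r ≤ 1 → 1 + Real.log (1 / r) ≤ E →
      1 ≤ Real.log (2 + E) ∧
      ∃ k0 : ℕ, 2 ≤ k0 ∧ C1 * (CT * (E + Real.log (1 / (r0 * r)))) * (3 / 4) ^ k0 ≤ 1 ∧
        (k0 : ℝ) ≤ C7 * Real.log (2 + E) := by
  have hD : 0 ≤ Real.log (1 / r0) := Real.log_nonneg (by rw [le_div_iff₀ hr0]; linarith)
  set D : ℝ := Real.log (1 / r0) with hDdef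
  have hCC : 1 ≤ C1 * CT := by nlinarith
  have hP1 : 1 ≤ C1 * CT * (2 + D) := by nlinarith
  have hP : 0 ≤ Real.log (C1 * CT * (2 + D)) := Real.log_nonneg hP1
  refine ⟨7 + 4 * Real.log (C1 * CT * (2 + D)), by linarith, ?_⟩
  intro r E hr hr1 hE
  have hlr : 0 ≤ Real.log (1 / r) := Real.log_nonneg (by rw [le_div_iff₀ hr]; linarith)
  have hE1 : 1 ≤ E := by linarith
  have hL : 1 ≤ Real.log (2 + E) := by
    rw [Real.le_log_iff_exp_le (by linarith)]
    have := Real.exp_one_lt_d9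
    linarith
  refine ⟨hL, ?_⟩
  have hsplit : Real.log (1 / (r0 * r)) = D + Real.log (1 / r) := by
    rw [hDdef, ← Real.log_mul (by positivity) (by positivity)]
    congr 1
    field_simp
  set Λ : ℝ := CT * (E + Real.log (1 / (r0 * r))) with hΛ
  have hΛ1 : 1 ≤ Λ := by
    rw [hΛ, hsplit]
    nlinarith
  have hX1 : 1 ≤ C1 * Λ := by nlinarith
  have hXle : C1 * Λ ≤ C1 * CT * (2 + D) * (2 + E) := by
    have h1 : Λ ≤ CT * ((2 + D) * (2 + E)) := by
      rw [hΛ, hsplit]
      refine mul_le_mul_of_nonneg_left ?_ (by linarith)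
      nlinarith
    calc C1 * Λ ≤ C1 * (CT * ((2 + D) * (2 + E))) := mul_le_mul_of_nonneg_left h1 (by linarith)
      _ = _ := by ring
  have hlog : Real.log (C1 * Λ) ≤ Real.log (C1 * CT * (2 + D)) + Real.log (2 + E) := by
    rw [← Real.log_mul (by linarith) (by linarith)]
    exact Real.log_le_log (by linarith) hXle
  have hlog0 : 0 ≤ Real.log (C1 * Λ) := Real.log_nonneg hX1
  refine ⟨⌈4 * Real.log (C1 * Λ)⌉₊ + 2, by omega, ?_, ?_⟩
  · set k0 : ℕ := ⌈4 * Real.log (C1 * Λ)⌉₊ + 2 with hk0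
    have hk : 4 * Real.log (C1 * Λ) ≤ (k0 : ℝ) := by
      rw [hk0]
      push_cast
      have := Nat.le_ceil (4 * Real.log (C1 * Λ))
      linarith
    have h34 : (3 / 4 : ℝ) ≤ Real.exp (-(1 / 4)) := by
      have := Real.add_one_le_exp (-(1 / 4) : ℝ)
      linarith
    have h1 : (3 / 4 : ℝ) ^ k0 ≤ Real.exp (-(1 / 4)) ^ k0 := pow_le_pow_left₀ (by norm_num) h34 _
    have h2 : Real.exp (-(1 / 4)) ^ k0 = Real.exp (-(k0 / 4)) := by
      rw [← Real.exp_nat_mul]
      congr 1
      ring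
    have h3 : C1 * Λ = Real.exp (Real.log (C1 * Λ)) := (Real.exp_log (by linarith)).symm
    calc C1 * Λ * (3 / 4) ^ k0 ≤ C1 * Λ * Real.exp (-(k0 / 4)) := by
          rw [← h2]
          exact mul_le_mul_of_nonneg_left h1 (by linarith)
      _ = Real.exp (Real.log (C1 * Λ) + -(k0 / 4)) := by
          rw [Real.exp_add, ← h3]
      _ ≤ Real.exp 0 := Real.exp_le_exp.2 (by linarith)
      _ = 1 := Real.exp_zero
  · push_cast
    have h1 := (Nat.ceil_lt_add_one (show (0:ℝ) ≤ 4 * Real.log (C1 * Λ) by linarith)).le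
    have h2 : 4 * Real.log (C1 * CT * (2 + D)) ≤
        4 * Real.log (C1 * CT * (2 + D)) * Real.log (2 + E) := by
      nlinarith
    nlinarith

theorem mainF : ∃ c C : ℝ, 0 < c ∧ c ≤ 1 ∧ 1 ≤ C ∧ ∀ r E t : ℝ, 0 < r → r ≤ 1 →
    1 + Real.log (1 / r) ≤ E → Tame r E t →
    ∀ s : ℂ, ‖s - (1 + t * I)‖ ≤ r / 4 → 1 - c * r / Real.log (2 + E) ≤ s.re → riemannZeta s ≠ 0 →
      ‖deriv riemannZeta s / riemannZeta s - LZ r t s‖ ≤
        C * (1 + zc r t) * Real.log (2 + E) / r := by
  obtain ⟨r1, C1, hr1, hr1', hC1, hloc⟩ := locF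
  obtain ⟨C2, hC2, hlow⟩ := lowA
  obtain ⟨CT, hCT, hgr⟩ := grT
  set r0 : ℝ := r1 / 8 with hr0def
  have hr0 : 0 < r0 := by positivity
  have hr0' : r0 ≤ 1 / 128 := by rw [hr0def]; linarith
  obtain ⟨C7, hC7, hc⟩ := consts hr0 (by linarith) hCT hC1
  refine ⟨r0 / C7, C1 * C7 / r0 + 4 + 1 / r0 + C2, by positivity, ?_, ?_, ?_⟩
  · rw [div_le_one (by linarith)]
    linarith
  · have : 0 ≤ C1 * C7 / r0 + 4 + 1 / r0 := by positivity
    linarith
  intro r E t hr hrle hE hT s hs hre hζ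
  obtain ⟨hL, k0, hk0, hpow, hkL⟩ := hc r E hr hrle hE
  set L : ℝ := Real.log (2 + E) with hLdef
  set a : ℝ := r0 * r with hadef
  have ha : 0 < a := by positivity
  have hlr : 0 ≤ Real.log (1 / r) := Real.log_nonneg (by rw [le_div_iff₀ hr]; linarith)
  have hE1 : 1 ≤ E := by linarith
  have har : a ≤ r / 128 := by rw [hadef]; nlinarith
  have ha1 : a ≤ r1 := by rw [hadef, hr0def]; nlinarith
  have hsdec : s - (1 + t * I) = ((s.re - 1 : ℝ) : ℂ) + ((s.im - t : ℝ) : ℂ) * I := by
    apply Complex.ext <;> simp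
  have him : |s.im - t| ≤ r / 4 := by
    have h1 := Complex.abs_im_le_norm (s - (1 + t * I))
    have h2 : (s - (1 + t * I)).im = s.im - t := by simp
    rw [h2] at h1
    exact h1.trans hs
  have hreb : |s.re - 1| ≤ r / 4 := by
    have h1 := Complex.abs_re_le_norm (s - (1 + t * I))
    have h2 : (s - (1 + t * I)).re = s.re - 1 := by simp
    rw [h2] at h1
    exact h1.trans hs
  have hshift : ∀ z : ℂ, ‖z - (1 + t * I)‖ ≤ ‖z - (1 + s.im * I)‖ + r / 4 := by
    intro z
    have h1 : z - (1 + t * I) = (z - (1 + s.im * I)) + ((s.im - t : ℝ) : ℂ) * I := by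
      push_cast
      ring
    rw [h1]
    refine (norm_add_le _ _).trans ?_
    rw [norm_mul, Complex.norm_real, Complex.norm_I, mul_one, Real.norm_eq_abs]
    linarith
  have hzc0 : (0 : ℝ) ≤ (zc r t : ℝ) := Nat.cast_nonneg _
  have hLr : 0 < r := hr
  by_cases hb : s.re - 1 ≤ 2 * a
  · -- near the line
    have hT' : Tame (r / 2) E s.im := by
      intro z hz
      exact hT z ((hshift z).trans (by linarith))
    have hG := hgr a (r / 2) E s.im ha (by linarith) (by linarith) hE1 hT'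
    have htabs := Pool.Agent.H21.GX.tame_abs hr hT
    have ht' : 2 * a ≤ |s.im| := by
      have h1 : |t| ≤ |s.im| + |s.im - t| := by
        have h2 : t = s.im - (s.im - t) := by ring
        calc |t| = |s.im - (s.im - t)| := by rw [← h2]
          _ ≤ |s.im| + |s.im - t| := abs_sub _ _
      linarith
    have hk0pos : (0 : ℝ) < k0 := by
      have : (2 : ℝ) ≤ k0 := by exact_mod_cast hk0
      linarith
    have hbl : -(a / k0) ≤ s.re - 1 := by
      have h1 : r0 / C7 * r / L ≤ a / k0 := by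
        rw [div_le_div_iff₀ (by linarith) hk0pos, hadef]
        have h3 : r0 / C7 * r * k0 ≤ r0 / C7 * r * (C7 * L) :=
          mul_le_mul_of_nonneg_left hkL (by positivity)
        calc r0 / C7 * r * k0 ≤ r0 / C7 * r * (C7 * L) := h3
          _ = r0 * r * L := by field_simp
      linarith
    have hsn : ‖s - pt a s.im‖ ≤ a * (1 + 1 / k0) := by
      have h1 : s - pt a s.im = ((s.re - 1 - a : ℝ) : ℂ) := by
        unfold pt
        apply Complex.ext
        · simp only [sub_re, add_re, ofReal_re, mul_re, I_re, mul_zero, ofReal_im, I_im, mul_one,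
            sub_self, add_zero]
          ring
        · simp only [sub_im, add_im, ofReal_im, mul_im, I_re, mul_zero, ofReal_re, I_im, mul_one,
            zero_add, add_zero, sub_self]
      rw [h1, Complex.norm_real, Real.norm_eq_abs, abs_le]
      have h2 : a * (1 + 1 / k0) = a + a / k0 := by ring
      have h3 : 0 ≤ a / k0 := by positivity
      rw [h2]
      constructor <;> linarith
    have hmain := hloc a s.im _ (r / 2) k0 ha ha1 (by linarith) (by linarith) ht' hG hk0
      (by rw [← mul_assoc] at hpow ⊢; exact hpow) s hsn hζ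
    -- compare the two sums
    have hsub : (disc_finite (show r / 2 ≤ 1 by linarith) s.im).toFinset ⊆
        (disc_finite hrle t).toFinset := by
      intro u hu
      rw [Set.Finite.mem_toFinset] at hu ⊢
      exact ⟨hu.1, lt_of_le_of_lt (hshift u) (by have := hu.2; linarith)⟩
    have hzle : (zc (r / 2) s.im : ℝ) ≤ zc r t := by
      have h1 : zc (r / 2) s.im ≤ zc r t := by
        rw [zc_sum (show r / 2 ≤ 1 by linarith), zc_sum hrle]
        exact Finset.sum_le_sum_of_subset hsub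
      exact_mod_cast h1
    have hdiff : ‖LZ r t s - LZ (r / 2) s.im s‖ ≤ (zc r t : ℝ) / (r / 4) := by
      rw [LZ_sum hrle, LZ_sum (show r / 2 ≤ 1 by linarith), ← Finset.sum_sdiff hsub, add_sub_cancel_right]
      refine (sum_far _ s (d := r / 4) (by linarith) ?_).trans ?_
      · intro u hu
        rw [Finset.mem_sdiff, Set.Finite.mem_toFinset, Set.Finite.mem_toFinset] at hu
        have h1 : r / 2 ≤ ‖u - (1 + s.im * I)‖ := by
          by_contra h
          exact hu.2 ⟨hu.1.1, not_le.1 h⟩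
        have h2 : ‖s - (1 + s.im * I)‖ ≤ r / 4 := by
          have h3 : s - (1 + s.im * I) = ((s.re - 1 : ℝ) : ℂ) := by
            apply Complex.ext <;> simp
          rw [h3, Complex.norm_real, Real.norm_eq_abs]
          exact hreb
        have h4 : ‖u - (1 + s.im * I)‖ ≤ ‖s - u‖ + ‖s - (1 + s.im * I)‖ := by
          have h5 : u - (1 + s.im * I) = -(s - u) + (s - (1 + s.im * I)) := by ring
          rw [h5]
          refine (norm_add_le _ _).trans ?_
          rw [norm_neg]
        linarith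
      · refine div_le_div_of_nonneg_right ?_ (by linarith)
        rw [zc_sum hrle]
        exact_mod_cast Finset.sum_le_sum_of_subset Finset.sdiff_subset
    have htri : ‖deriv riemannZeta s / riemannZeta s - LZ r t s‖ ≤
        C1 * k0 * (1 + zc r t) / a + (zc r t : ℝ) / (r / 4) := by
      have h1 : deriv riemannZeta s / riemannZeta s - LZ r t s =
          (deriv riemannZeta s / riemannZeta s - LZ (r / 2) s.im s) - (LZ r t s - LZ (r / 2) s.im s) := by
        ring
      rw [h1]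
      refine (norm_sub_le _ _).trans (add_le_add (hmain.trans ?_) hdiff)
      gcongr
    refine htri.trans ?_
    have h1 : C1 * k0 * (1 + zc r t) / a ≤ C1 * C7 / r0 * ((1 + zc r t) * L / r) := by
      have h2 : C1 * k0 * (1 + zc r t) / a ≤ C1 * (C7 * L) * (1 + zc r t) / a := by
        gcongr
      refine h2.trans (le_of_eq ?_)
      rw [hadef]
      field_simp
    have h3 : (zc r t : ℝ) / (r / 4) ≤ 4 * ((1 + zc r t) * L / r) := by
      have h4 : (zc r t : ℝ) ≤ (1 + zc r t) * L := by nlinarith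
      have h5 : (zc r t : ℝ) / (r / 4) = 4 * (zc r t / r) := by
        field_simp
      rw [h5]
      gcongr
    have h6 : 0 ≤ (1 / r0 + C2) * ((1 + zc r t) * L / r) := by positivity
    calc C1 * k0 * (1 + zc r t) / a + (zc r t : ℝ) / (r / 4)
        ≤ C1 * C7 / r0 * ((1 + zc r t) * L / r) + 4 * ((1 + zc r t) * L / r) := add_le_add h1 h3
      _ ≤ C1 * C7 / r0 * ((1 + zc r t) * L / r) + 4 * ((1 + zc r t) * L / r) +
          (1 / r0 + C2) * ((1 + zc r t) * L / r) := by linarith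
      _ = _ := by ring
  · -- to the right
    push Not at hb
    set b : ℝ := s.re - 1 with hbdef
    have hb0 : 0 < b := by linarith
    have hb1 : b ≤ 1 := by
      have := (le_abs_self b).trans hreb
      linarith
    have hsb : ((1 + b : ℝ) : ℂ) + s.im * I = s := by
      apply Complex.ext
      · simp [hbdef]
      · simp
    have h1 := (hlow b hb0 hb1).1 s.im
    rw [hsb] at h1
    have h2 : ‖LZ r t s‖ ≤ (zc r t : ℝ) / b := by
      rw [LZ_sum hrle, zc_sum hrle]
      refine sum_far _ s hb0 ?_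
      intro u hu
      rw [Set.Finite.mem_toFinset] at hu
      have h3 := re_lt_one hu.1
      have h4 := (le_abs_self (s - u).re).trans (Complex.abs_re_le_norm (s - u))
      rw [sub_re] at h4
      linarith
    have hinv : 1 / b ≤ 1 / r0 / r := by
      rw [div_div]
      refine one_div_le_one_div_of_le (by positivity) ?_
      rw [← hadef]
      linarith
    have h5 : 1 / b + C2 ≤ (1 / r0 + C2) / r := by
      have h6 : C2 ≤ C2 / r := by
        rw [le_div_iff₀ hr]
        nlinarith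
      rw [add_div]
      linarith
    have h7 : (zc r t : ℝ) / b ≤ (1 / r0 + C2) * zc r t / r := by
      calc (zc r t : ℝ) / b = zc r t * (1 / b) := by ring
        _ ≤ zc r t * (1 / r0 / r) := mul_le_mul_of_nonneg_left hinv hzc0
        _ = (1 / r0) * zc r t / r := by ring
        _ ≤ (1 / r0 + C2) * zc r t / r := by gcongr; linarith
    have h8 : ‖deriv riemannZeta s / riemannZeta s - LZ r t s‖ ≤ (1 / r0 + C2) * ((1 + zc r t) / r) := by
      refine (norm_sub_le _ _).trans ?_
      calc ‖deriv riemannZeta s / riemannZeta s‖ + ‖LZ r t s‖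
          ≤ (1 / r0 + C2) / r + (1 / r0 + C2) * zc r t / r :=
            add_le_add (h1.trans h5) (h2.trans h7)
        _ = _ := by ring
    refine h8.trans ?_
    have h9 : (1 + zc r t) / r ≤ (1 + zc r t) * L / r := by
      gcongr
      nlinarith
    have h10 : 0 ≤ (C1 * C7 / r0 + 4) * ((1 + zc r t) * L / r) := by positivity
    calc (1 / r0 + C2) * ((1 + zc r t) / r) ≤ (1 / r0 + C2) * ((1 + zc r t) * L / r) :=
          mul_le_mul_of_nonneg_left h9 (by positivity)
      _ ≤ (1 / r0 + C2) * ((1 + zc r t) * L / r) + (C1 * C7 / r0 + 4) * ((1 + zc r t) * L / r) := by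
          linarith
      _ = _ := by ring

end Pool.Agent.H76.LF
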