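import Mathlib
import Pool.Agent.H76.LF.MainF
import Pool.Agent.H76.RP.PosT

/-!
# LawU: uncrowded zeros

PROOF: `L = log (2 + E) ≥ 1`, `K0` a large absolute constant, `b = K0 d ≤ r/4`, `R = S.card`, `X = S.image im` (`im` is
injective on `S`: if `ρ ≠ ρ'`, `Tame r E 0` is impossible by `tame_abs` of `H21/GX/Simp.lean`).
`posT` with `d = dco b 0` and `l = R`; `Dk b 0 t = -ζ'/ζ (pt b t)` (`Dk_eq`, `k = 0`,
`ArithmeticFunction.LSeries_vonMangoldt_eq_deriv_riemannZeta_div`); `f0 = -ζ'/ζ (1+b) ≤ 1/b + C` (`lowA`).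
For `ρ ∈ S`, `t = Im ρ`, `δ = 1 - Re ρ ≤ d < r`, `ρ ∈ disc r t`: `mainF` at `s = 1 + b + it` gives
`Re ζ'/ζ(s) ≥ 1/(b + δ) - C (1 + zc r t) L/r ≥ 1/(b+d) - C L/r - C c/d ≥ (1 - η)/b` (the other terms of `LZ` have
`Re ≥ 0`; `zc r t ≥ 1`; `1/(b + d) ≥ (1 - 1/K0)/b`; `C K0 d L/r ≤ C K0 c`, `C c K0`: `c` small after `K0`).
For `t = Im ρ - Im ρ'`, tame: `Re Dk b 0 t = -Re ζ'/ζ ≤ C (1 + zc r t) L/r` (`Re LZ ≥ 0`).
So `0 ≤ R² f0 - 2 R² (1 - η)/b + R f0 + C (L/r) (R² + Σ)`, `Σ = ∑∑ zc`; multiply by `b`: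
`(1 - 3η) R² ≤ (1 + η) R + η R² + C K0 (d L/r) Σ`, `η = 1/20`: `R ≤ (1+η)/(1-4η) + C' (dL/r) Σ/R`, and
`(1+η)/(1-4η) < 3/2`: if `C' (dL/r) Σ/R < 1/2` then `R < 2`, `R ≤ 1`; otherwise `R ≤ 3/2 + C'(..) ≤ 1 + 2 C'(..)`.
`R = 0` trivial.  About 250 lines.
-/

set_option autoImplicit false

open Complex

namespace Pool.Agent.H76.LF

open Pool.Agent.H76.CR Pool.Agent.H76.RP Pool.Agent.H76.GL

private theorem lu_Dk {b : ℝ} (hb : 0 < b) (t : ℝ) :
    (Dk b 0 t).re = -(deriv riemannZeta (pt b t) / riemannZeta (pt b t)).re := by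
  have hre : 1 < (pt b t).re := by
    simp [pt]
    linarith
  have h := ArithmeticFunction.LSeries_vonMangoldt_eq_deriv_riemannZeta_div hre
  have h2 : Dk b 0 t = -(deriv riemannZeta (pt b t) / riemannZeta (pt b t)) := by
    rw [Dk_eq hb 0 t]
    simp only [pow_zero, Nat.factorial_zero, Nat.cast_one, div_one, iteratedDeriv_zero, one_mul]
    rw [h, neg_div]
  rw [h2, Complex.neg_re]

private theorem lu_pos {b : ℝ} (hb : 0 < b) (X : Finset ℝ) (l : ℝ) :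
    0 ≤ l ^ 2 * (Dk b 0 0).re + 2 * l * ∑ x ∈ X, (Dk b 0 x).re +
      ∑ x ∈ X, ∑ z ∈ X, (Dk b 0 (x - z)).re := by
  have h := posT (dco b 0) (dco_nonneg b 0) (by simp [dco]) (summable_dco hb 0) X l
  rw [Dk_zero, Complex.ofReal_re]
  exact h

private theorem lu_pt_re (b t : ℝ) : (pt b t).re = 1 + b := by simp [pt]

private theorem lu_pt_im (b t : ℝ) : (pt b t).im = t := by simp [pt]

private theorem lu_term {b t : ℝ} (hb : 0 < b) {u : ℂ} (hu : riemannZeta u = 0) (m : ℕ) :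
    0 ≤ ((m : ℂ) / (pt b t - u)).re := by
  rw [Complex.div_re, Complex.natCast_re, Complex.natCast_im, zero_mul, zero_div, add_zero,
    Complex.sub_re, lu_pt_re]
  have h1 := re_lt_one hu
  refine div_nonneg (mul_nonneg (Nat.cast_nonneg m) (by linarith)) (Complex.normSq_nonneg _)

private theorem lu_LZ_nonneg {b r t : ℝ} (hb : 0 < b) (hr : r ≤ 1) : 0 ≤ (LZ r t (pt b t)).re := by
  rw [LZ_sum hr, Complex.re_sum]
  refine Finset.sum_nonneg fun u hu => ?_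
  rw [Set.Finite.mem_toFinset] at hu
  exact lu_term hb hu.1 _

private theorem lu_LZ_ge {b d r : ℝ} {ρ : ℂ} (hb : 0 < b) (hr : r ≤ 1) (hρ : riemannZeta ρ = 0)
    (hd : 1 - d ≤ ρ.re) (hdr : d < r) : 1 / (b + d) ≤ (LZ r ρ.im (pt b ρ.im)).re := by
  have hlt := re_lt_one hρ
  rw [LZ_sum hr, Complex.re_sum]
  have hmem : ρ ∈ (disc_finite hr ρ.im).toFinset := by
    rw [Set.Finite.mem_toFinset]
    refine ⟨hρ, ?_⟩
    have h1 : ρ - (1 + ρ.im * I) = ((ρ.re - 1 : ℝ) : ℂ) := by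
      apply Complex.ext <;> simp
    rw [h1, Complex.norm_real, Real.norm_eq_abs, abs_lt]
    constructor <;> linarith
  have h2 := Finset.single_le_sum
    (f := fun u => ((analyticOrderNatAt riemannZeta u : ℂ) / (pt b ρ.im - u)).re)
    (s := (disc_finite hr ρ.im).toFinset) (fun u hu => by
      rw [Set.Finite.mem_toFinset] at hu
      exact lu_term hb hu.1 _) hmem
  refine le_trans ?_ h2
  have h3 : pt b ρ.im - ρ = ((b + (1 - ρ.re) : ℝ) : ℂ) := by
    apply Complex.ext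
    · rw [Complex.sub_re, lu_pt_re, Complex.ofReal_re]
      ring
    · rw [Complex.sub_im, lu_pt_im, Complex.ofReal_im]
      ring
  have h4 : (analyticOrderNatAt riemannZeta ρ : ℂ) / (pt b ρ.im - ρ) =
      (((analyticOrderNatAt riemannZeta ρ : ℝ) / (b + (1 - ρ.re)) : ℝ) : ℂ) := by
    rw [h3]
    push_cast
    ring
  show 1 / (b + d) ≤ ((analyticOrderNatAt riemannZeta ρ : ℂ) / (pt b ρ.im - ρ)).re
  rw [h4, Complex.ofReal_re]
  have h5 : (1 : ℝ) ≤ analyticOrderNatAt riemannZeta ρ := by exact_mod_cast ord_pos hρ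
  exact div_le_div₀ (by linarith) h5 (by linarith) (by linarith)

private theorem lu_L {r E : ℝ} (hr : 0 < r) (hr1 : r ≤ 1) (hE : 1 + Real.log (1 / r) ≤ E) :
    1 ≤ Real.log (2 + E) := by
  have hlr : 0 ≤ Real.log (1 / r) := Real.log_nonneg (by rw [le_div_iff₀ hr]; linarith)
  rw [Real.le_log_iff_exp_le (by linarith)]
  have := Real.exp_one_lt_d9
  linarith

/-- the arithmetic at the end -/
private theorem lu_end {R : ℕ} {Q : ℝ} (hQ : 0 ≤ Q)
    (h : 16 * (R : ℝ) ^ 2 ≤ 21 * R + 20 * Q) : (R : ℝ) ≤ 1 + 2 * (Q / R) := by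
  rcases Nat.lt_or_ge R 2 with hR | hR
  · have h1 : (R : ℝ) ≤ 1 := by
      have : R ≤ 1 := by omega
      exact_mod_cast this
    have h2 : 0 ≤ Q / R := div_nonneg hQ (Nat.cast_nonneg R)
    linarith
  · have h1 : (2 : ℝ) ≤ R := by exact_mod_cast hR
    have h2 : (R : ℝ) - 1 ≤ 2 * (Q / R) := by
      rw [← mul_div_assoc, le_div_iff₀ (by linarith)]
      nlinarith
    linarith

theorem lawU : ∃ c C : ℝ, 0 < c ∧ c ≤ 1 ∧ 1 ≤ C ∧ ∀ (r E d : ℝ) (S : Finset ℂ), 0 < r → r ≤ 1 →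
    1 + Real.log (1 / r) ≤ E → 0 < d → d * Real.log (2 + E) ≤ c * r →
    (∀ ρ ∈ S, riemannZeta ρ = 0 ∧ 1 - d ≤ ρ.re ∧ Tame r E ρ.im ∧
      (zc r ρ.im : ℝ) * (d * Real.log (2 + E)) ≤ c * r) →
    (∀ ρ ∈ S, ∀ ρ' ∈ S, ρ ≠ ρ' → Tame r E (ρ.im - ρ'.im)) →
    (S.card : ℝ) ≤ 1 + C * (d * Real.log (2 + E) / r) *
      ((∑ ρ ∈ S, ∑ ρ' ∈ S, (if ρ = ρ' then 0 else (zc r (ρ.im - ρ'.im) : ℝ))) / S.card) := by
  classical
  obtain ⟨c0, C0, hc0, hc01, hC0, hmain⟩ := mainF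
  obtain ⟨C1, hC1, hlow⟩ := lowA
  have hCC : 0 < C0 * C1 := by positivity
  have hCC1 : 1 ≤ C0 * C1 := by nlinarith
  refine ⟨1 / (3200 * (C0 * C1)), 80 * C0, by positivity, ?_, by linarith, ?_⟩
  · rw [div_le_one (by positivity)]
    linarith
  intro r E d S hr hr1 hE hd hdL hS hsep
  set c : ℝ := 1 / (3200 * (C0 * C1)) with hc
  have hcpos : 0 < c := by positivity
  set L : ℝ := Real.log (2 + E) with hLdef
  have hL : 1 ≤ L := lu_L hr hr1 hE
  set b : ℝ := 40 * d with hbdef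
  have hb : 0 < b := by positivity
  -- consequences of the choice of `c`
  have hc1 : c * (3200 * (C0 * C1)) = 1 := by
    rw [hc]
    field_simp
  have hcC0 : c * C0 ≤ 1 / 3200 := by
    have h1 : c * C0 * 3200 ≤ c * C0 * 3200 * C1 := by
      have : 0 ≤ c * C0 * 3200 := by positivity
      nlinarith
    nlinarith
  have hcC1 : c * C1 ≤ 1 / 3200 := by
    have h1 : c * C1 * 3200 ≤ c * C1 * 3200 * C0 := by
      have : 0 ≤ c * C1 * 3200 := by positivity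
      nlinarith
    nlinarith
  have hc3200 : c ≤ 1 / 3200 := by nlinarith
  have hdr : d ≤ c * r := by
    have : d ≤ d * L := by nlinarith
    linarith
  have hdr2 : d < r := by nlinarith
  have hbr : b ≤ r / 4 := by
    rw [hbdef]
    nlinarith
  have hb1 : b ≤ 1 := by linarith
  have hdc : d ≤ c := by nlinarith
  -- the value at `0`
  have hf0 : b * (Dk b 0 0).re ≤ 21 / 20 := by
    have h1 := (hlow b hb hb1).1 0
    have h2 : (((1 + b : ℝ) : ℂ) + ((0 : ℝ) : ℂ) * I) = pt b 0 := rfl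
    rw [h2] at h1
    have h3 : (Dk b 0 0).re ≤ 1 / b + C1 := by
      rw [lu_Dk hb 0]
      have h4 := (Complex.abs_re_le_norm _).trans h1
      have h5 := neg_abs_le ((deriv riemannZeta (pt b 0) / riemannZeta (pt b 0)).re)
      linarith
    have h4 : b * (Dk b 0 0).re ≤ b * (1 / b + C1) := mul_le_mul_of_nonneg_left h3 hb.le
    have h5 : b * (1 / b + C1) = 1 + b * C1 := by
      field_simp
    have h6 : b * C1 ≤ 1 / 20 := by
      have h7 : d * C1 ≤ c * C1 := mul_le_mul_of_nonneg_right hdc (by linarith)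
      rw [hbdef]
      linarith
    linarith
  -- tame heights
  have hloc : ∀ t : ℝ, Tame r E t →
      (Dk b 0 t).re ≤ C0 * (1 + zc r t) * L / r - (LZ r t (pt b t)).re := by
    intro t ht
    have h1 : pt b t - (1 + t * I) = ((b : ℝ) : ℂ) := by
      unfold pt
      push_cast
      ring
    have h2 := hmain r E t hr hr1 hE ht (pt b t)
      (by rw [h1, Complex.norm_real, Real.norm_of_nonneg hb.le]; exact hbr)
      (by
        rw [lu_pt_re]
        have : 0 ≤ c0 * r / Real.log (2 + E) := by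
          rw [← hLdef]
          positivity
        linarith)
      (riemannZeta_ne_zero_of_one_le_re (by rw [lu_pt_re]; linarith))
    have h3 := (Complex.abs_re_le_norm _).trans h2
    rw [Complex.sub_re] at h3
    rw [lu_Dk hb t]
    have h4 := neg_abs_le ((deriv riemannZeta (pt b t) / riemannZeta (pt b t)).re -
      (LZ r t (pt b t)).re)
    rw [← hLdef] at h3
    linarith
  have hoff : ∀ t : ℝ, Tame r E t → b * (Dk b 0 t).re ≤ 40 * C0 * (d * L / r) * (1 + zc r t) := by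
    intro t ht
    have h1 := hloc t ht
    have h2 := lu_LZ_nonneg (t := t) hb hr1
    have h3 : (Dk b 0 t).re ≤ C0 * (1 + zc r t) * L / r := by linarith
    calc b * (Dk b 0 t).re ≤ b * (C0 * (1 + zc r t) * L / r) := mul_le_mul_of_nonneg_left h3 hb.le
      _ = _ := by
        rw [hbdef]
        ring
  have hon : ∀ ρ ∈ S, b * (Dk b 0 ρ.im).re ≤ -(19 / 20) := by
    intro ρ hρ
    obtain ⟨h0, h1, h2, h3⟩ := hS ρ hρ
    have h4 := hloc ρ.im h2
    have h5 := lu_LZ_ge hb hr1 h0 h1 hdr2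
    have hz : (1 : ℝ) ≤ zc r ρ.im := by exact_mod_cast zc_pos hr1 h0 (by linarith)
    have h6 : b * (1 / (b + d)) = 40 / 41 := by
      rw [hbdef]
      have : (40 * d + d) ≠ 0 := by positivity
      field_simp
      ring
    have h7 : b * (C0 * (1 + zc r ρ.im) * L / r) ≤ 1 / 40 := by
      have h8 : C0 * (1 + zc r ρ.im) * L / r ≤ C0 * (2 * zc r ρ.im) * L / r := by
        gcongr
        linarith
      have h9 : b * (C0 * (2 * zc r ρ.im) * L / r) = 80 * C0 * ((zc r ρ.im : ℝ) * (d * L) / r) := by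
        rw [hbdef]
        ring
      have h10 : (zc r ρ.im : ℝ) * (d * L) / r ≤ c := by
        rw [div_le_iff₀ hr]
        exact h3
      have h11 : 80 * C0 * ((zc r ρ.im : ℝ) * (d * L) / r) ≤ 80 * C0 * c :=
        mul_le_mul_of_nonneg_left h10 (by linarith)
      have h12 := mul_le_mul_of_nonneg_left h8 hb.le
      linarith
    have h8 : b * (Dk b 0 ρ.im).re ≤ b * (C0 * (1 + zc r ρ.im) * L / r - 1 / (b + d)) :=
      mul_le_mul_of_nonneg_left (by linarith) hb.le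
    rw [mul_sub, h6] at h8
    linarith
  -- positivity
  set R : ℝ := (S.card : ℝ) with hR
  have hR0 : 0 ≤ R := Nat.cast_nonneg _
  set Sg : ℝ := ∑ ρ ∈ S, ∑ ρ' ∈ S, (if ρ = ρ' then 0 else (zc r (ρ.im - ρ'.im) : ℝ)) with hSg
  have hSg0 : 0 ≤ Sg := by
    refine Finset.sum_nonneg fun ρ _ => Finset.sum_nonneg fun ρ' _ => ?_
    split_ifs
    · exact le_refl _
    · exact Nat.cast_nonneg _
  have hinj : Set.InjOn Complex.im (S : Set ℂ) := by
    intro ρ hρ ρ' hρ' h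
    by_contra hne
    have h1 := hsep ρ hρ ρ' hρ' hne
    have h2 := Pool.Agent.H21.GX.tame_abs hr h1
    rw [h, sub_self, abs_zero] at h2
    linarith
  have hpos := lu_pos hb (S.image Complex.im) R
  rw [Finset.sum_image hinj, Finset.sum_image hinj] at hpos
  have hpos2 : 0 ≤ R ^ 2 * (Dk b 0 0).re + 2 * R * ∑ ρ ∈ S, (Dk b 0 ρ.im).re +
      ∑ ρ ∈ S, ∑ ρ' ∈ S, (Dk b 0 (ρ.im - ρ'.im)).re := by
    have h1 : ∑ ρ ∈ S, ∑ z ∈ S.image Complex.im, (Dk b 0 (ρ.im - z)).re =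
        ∑ ρ ∈ S, ∑ ρ' ∈ S, (Dk b 0 (ρ.im - ρ'.im)).re :=
      Finset.sum_congr rfl fun ρ _ => Finset.sum_image hinj
    rw [h1] at hpos
    exact hpos
  have hA : b * ∑ ρ ∈ S, (Dk b 0 ρ.im).re ≤ -(19 / 20) * R := by
    rw [Finset.mul_sum]
    refine (Finset.sum_le_sum hon).trans (le_of_eq ?_)
    rw [Finset.sum_const, nsmul_eq_mul, ← hR]
    ring
  set q : ℝ := d * L / r with hq
  have hq0 : 0 ≤ q := by positivity
  have hqc : q ≤ c := by
    rw [hq, div_le_iff₀ hr]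
    exact hdL
  have hB : b * ∑ ρ ∈ S, ∑ ρ' ∈ S, (Dk b 0 (ρ.im - ρ'.im)).re ≤
      21 / 20 * R + 40 * C0 * q * (R ^ 2 + Sg) := by
    rw [Finset.mul_sum]
    have h1 : ∀ ρ ∈ S, b * ∑ ρ' ∈ S, (Dk b 0 (ρ.im - ρ'.im)).re ≤
        21 / 20 + 40 * C0 * q * (R + ∑ ρ' ∈ S, (if ρ = ρ' then 0 else (zc r (ρ.im - ρ'.im) : ℝ))) := by
      intro ρ hρ
      rw [Finset.mul_sum]
      have h2 : ∀ ρ' ∈ S, b * (Dk b 0 (ρ.im - ρ'.im)).re ≤
          (if ρ = ρ' then 21 / 20 else 0) +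
            40 * C0 * q * (1 + (if ρ = ρ' then 0 else (zc r (ρ.im - ρ'.im) : ℝ))) := by
        intro ρ' hρ'
        by_cases h : ρ = ρ'
        · rw [if_pos h, if_pos h, h, sub_self]
          have h3 : 0 ≤ 40 * C0 * q * (1 + 0) := by positivity
          linarith
        · rw [if_neg h, if_neg h]
          have h3 := hoff _ (hsep ρ hρ ρ' hρ' h)
          linarith
      refine (Finset.sum_le_sum h2).trans (le_of_eq ?_)
      rw [Finset.sum_add_distrib, Finset.sum_ite_eq, if_pos hρ, ← Finset.mul_sum,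
        Finset.sum_add_distrib, Finset.sum_const, nsmul_eq_mul, mul_one, ← hR]
    refine (Finset.sum_le_sum h1).trans (le_of_eq ?_)
    rw [Finset.sum_add_distrib, Finset.sum_const, nsmul_eq_mul, ← Finset.mul_sum,
      Finset.sum_add_distrib, Finset.sum_const, nsmul_eq_mul, ← hR, ← hSg]
    ring
  have hC : 40 * C0 * q ≤ 1 / 20 := by
    have : 40 * C0 * q ≤ 40 * C0 * c := mul_le_mul_of_nonneg_left hqc (by linarith)
    linarith
  have hfin : 16 * R ^ 2 ≤ 21 * R + 20 * (40 * C0 * q * Sg) := by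
    have h1 : 0 ≤ b * (R ^ 2 * (Dk b 0 0).re + 2 * R * ∑ ρ ∈ S, (Dk b 0 ρ.im).re +
      ∑ ρ ∈ S, ∑ ρ' ∈ S, (Dk b 0 (ρ.im - ρ'.im)).re) := mul_nonneg hb.le hpos2
    have h2 : b * (R ^ 2 * (Dk b 0 0).re + 2 * R * ∑ ρ ∈ S, (Dk b 0 ρ.im).re +
      ∑ ρ ∈ S, ∑ ρ' ∈ S, (Dk b 0 (ρ.im - ρ'.im)).re) =
      R ^ 2 * (b * (Dk b 0 0).re) + 2 * R * (b * ∑ ρ ∈ S, (Dk b 0 ρ.im).re) +
        b * ∑ ρ ∈ S, ∑ ρ' ∈ S, (Dk b 0 (ρ.im - ρ'.im)).re := by ring
    have h3 : R ^ 2 * (b * (Dk b 0 0).re) ≤ R ^ 2 * (21 / 20) :=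
      mul_le_mul_of_nonneg_left hf0 (by positivity)
    have h4 : 2 * R * (b * ∑ ρ ∈ S, (Dk b 0 ρ.im).re) ≤ 2 * R * (-(19 / 20) * R) :=
      mul_le_mul_of_nonneg_left hA (by positivity)
    have h5 : 40 * C0 * q * R ^ 2 ≤ 1 / 20 * R ^ 2 := mul_le_mul_of_nonneg_right hC (by positivity)
    nlinarith
  have hend := lu_end (R := S.card) (Q := 40 * C0 * q * Sg) (by positivity) hfin
  refine hend.trans (le_of_eq ?_)
  ring

end Pool.Agent.H76.LF
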