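import Mathlib
import Pool.Agent.H76.GL.TameR

/-!
# Ric: the unconditional tameness with `log (2 + E) = O(loglog T)`

PROOF: `tameR` (`H76/GL/TameR.lean`): `Tame r E t` with `E = CR (r^(3/2) log T + loglog T + log (1/r))`.  For
`1/log T ≤ r ≤ 1/4` and `T ≥ C`: `1 + log (1/r) ≤ E ≤ 3 CR log T` and `log (2 + E) ≤ C' loglog T`.
-/

set_option autoImplicit false

open Complex

namespace Pool.Agent.H76.LF

open Pool.Agent.H76.CR Pool.Agent.H76.GL

theorem ric : ∃ C : ℝ, 1 ≤ C ∧ ∀ r T t : ℝ, C ≤ T → 1 / Real.log T ≤ r → r ≤ 1 / 4 → 2 * r ≤ |t| → |t| ≤ T →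
    ∃ E : ℝ, 1 + Real.log (1 / r) ≤ E ∧ Real.log (2 + E) ≤ C * Real.log (Real.log T) ∧ Tame r E t := by
  obtain ⟨CR, hCR, hT⟩ := tameR
  have hlC : 0 ≤ Real.log (5 * CR) := Real.log_nonneg (by linarith)
  have hee : 0 < Real.exp (Real.exp 1) := Real.exp_pos _
  refine ⟨CR + Real.log (5 * CR) + 1 + Real.exp (Real.exp 1), by linarith, ?_⟩
  intro r T t hTC hr1 hr4 ht2 htT
  have hTe : Real.exp (Real.exp 1) ≤ T := by linarith
  have hT0 : 0 < T := by linarith
  have hlT : Real.exp 1 ≤ Real.log T := (Real.le_log_iff_exp_le hT0).2 hTe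
  have he1 : 1 < Real.exp 1 := by
    have := Real.add_one_lt_exp (x := 1) (by norm_num)
    linarith
  have hlT0 : 0 < Real.log T := by linarith
  have hY1 : 1 ≤ Real.log (Real.log T) := (Real.le_log_iff_exp_le hlT0).2 hlT
  have hr0 : 0 < r := lt_of_lt_of_le (by positivity) hr1
  have hZ0 : 0 ≤ Real.log (1 / r) := Real.log_nonneg (by rw [le_div_iff₀ hr0]; linarith)
  have hZ1 : Real.log (1 / r) ≤ Real.log (Real.log T) := by
    apply Real.log_le_log (by positivity)
    rw [div_le_iff₀ hr0]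
    rw [div_le_iff₀ hlT0] at hr1
    linarith
  have hYT : Real.log (Real.log T) ≤ Real.log T := by
    have := Real.log_le_sub_one_of_pos hlT0
    linarith
  have hX0 : 0 ≤ r ^ (3 / 2 : ℝ) := Real.rpow_nonneg hr0.le _
  have hX1 : r ^ (3 / 2 : ℝ) ≤ 1 := Real.rpow_le_one hr0.le (by linarith) (by norm_num)
  have hXT : r ^ (3 / 2 : ℝ) * Real.log T ≤ Real.log T := by nlinarith
  have hXT0 : 0 ≤ r ^ (3 / 2 : ℝ) * Real.log T := by positivity
  have hS0 : 1 + Real.log (1 / r) ≤ r ^ (3 / 2 : ℝ) * Real.log T + Real.log (Real.log T) + Real.log (1 / r) := by linarith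
  have hS1 : r ^ (3 / 2 : ℝ) * Real.log T + Real.log (Real.log T) + Real.log (1 / r) ≤ 3 * Real.log T := by linarith
  refine ⟨CR * (r ^ (3 / 2 : ℝ) * Real.log T + Real.log (Real.log T) + Real.log (1 / r)), ?_, ?_,
    hT r T t hr0 hr4 (by linarith) ht2 htT⟩
  · nlinarith
  · have h1 : 2 + CR * (r ^ (3 / 2 : ℝ) * Real.log T + Real.log (Real.log T) + Real.log (1 / r)) ≤ 5 * CR * Real.log T := by
      have h2 : 1 ≤ CR * Real.log T := by nlinarith
      nlinarith
    have h3 : 0 < 2 + CR * (r ^ (3 / 2 : ℝ) * Real.log T + Real.log (Real.log T) + Real.log (1 / r)) := by nlinarith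
    have h4 := Real.log_le_log h3 h1
    rw [Real.log_mul (by positivity) (by positivity)] at h4
    have h5 : 0 ≤ (CR + Real.exp (Real.exp 1)) * Real.log (Real.log T) := by positivity
    have h6 : Real.log (5 * CR) ≤ Real.log (5 * CR) * Real.log (Real.log T) := by nlinarith
    nlinarith

end Pool.Agent.H76.LF
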