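import Mathlib
import Pool.Agent.H76.LF.LawU
import Pool.Agent.H76.LF.Box
import Pool.Agent.H76.LF.Ric
import Pool.Agent.H52.ZR.Low

/-!
# Law: the linear law for windows

PROOF of `law`: `ℓ = loglog (T+H)`.  `ric` with `r/2` in place of `r` and `(T+H)²` in place of `T`
(`log (T+H)² = 2 log (T+H)`, `1/log (T+H)² ≤ r/2`, `loglog (T+H)² ≤ 2 ℓ`): every `t` with `r ≤ |t| ≤ T+H` is tame
for the radius `r/2` with some `E = E(t)`, `log (2 + E) ≤ C ℓ`; as `Tame.mono` allows one common `E`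
(`E = exp (C ℓ) - 2`, or the maximum over the finitely many heights used), `L = log (2+E) ≤ C ℓ`.
If `d ℓ > c r`: `|S| ≤ zwin r (T-1) (T+H+1) ≤ (dℓ/(c r)) zwin` (`card_le_win`, `1 - r < 1 - d ≤ Re ρ`).
Otherwise split `S = S1 ∪ S2`, `S2` the `ρ` with `zc (r/2) (Im ρ) (d L) > c r/2`; `Im` is injective on `S`;
`|S2| c r/(2 d L) ≤ ∑_(ρ ∈ S2) zc (r/2) (Im ρ) ≤ zwin r (T-1) (T+H+1)` (`box_sum`).  `S1`: `lawU` with radius `r/2`
(differences: `r ≤ |Im ρ - Im ρ'| ≤ H ≤ T + H`), and for every `ρ ∈ S1`, `∑_(ρ' ≠ ρ) zc (r/2) (Im ρ - Im ρ') ≤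
zwin r (-(H+1)) (H+1)` (`box_sum` for `X = {Im ρ - Im ρ'}`, `A = -H`, `B = H`).
PROOF of `law0`: `vk_all` (`H52/ZR/Low.lean`): a zero `u` in the window has `Re u > 1 - r ≥ 0`... so
`c ≤ (1 - Re u) vklam |Im u| < r vklam (H+1)`, contradiction; the finsum over the empty set is `0`.  About 220 lines.
-/

set_option autoImplicit false

open Complex

namespace Pool.Agent.H76.LF

open Pool.Agent.H76.CR Pool.Agent.H76.RP Pool.Agent.H76.GL Pool.Agent.H52.ZR

private theorem lw_llog {X : ℝ} (hX : 16 ≤ X) : 1 ≤ Real.log (Real.log X) ∧ 1 ≤ Real.log X := by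
  have h1 : Real.log 16 ≤ Real.log X := Real.log_le_log (by norm_num) hX
  have h2 : Real.log 16 = 4 * Real.log 2 := by
    rw [show (16 : ℝ) = 2 ^ 4 by norm_num, Real.log_pow]
    norm_num
  have h3 := Real.log_two_gt_d9
  have h4 := Real.exp_one_lt_d9
  have h5 : Real.exp 1 ≤ Real.log X := by linarith
  refine ⟨?_, ?_⟩
  · rw [Real.le_log_iff_exp_le (lt_of_lt_of_le (Real.exp_pos _) h5)]
    exact h5
  · linarith

/-- a sum of `zc (r / 2)` over separated points is at most the number of zeros in the window -/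
private theorem lw_box {r A B : ℝ} (hr : 0 < r) (hr1 : r ≤ 1) (S : Finset ℂ) (f : ℂ → ℝ)
    (hS : ∀ ρ ∈ S, ∀ ρ' ∈ S, ρ ≠ ρ' → r ≤ |f ρ - f ρ'|) (hAB : ∀ ρ ∈ S, A ≤ f ρ ∧ f ρ ≤ B) :
    ∑ ρ ∈ S, (zc (r / 2) (f ρ) : ℝ) ≤ (zwin r (A - 1) (B + 1) : ℝ) := by
  classical
  have hinj : Set.InjOn f S := by
    intro ρ hρ ρ' hρ' h
    by_contra hne
    have h1 := hS ρ hρ ρ' hρ' hne
    rw [h, sub_self, abs_zero] at h1
    linarith
  have h1 := box_sum (A := A) (B := B) hr hr1 (S.image f) (by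
    intro s hs t ht hst
    obtain ⟨a, ha, rfl⟩ := Finset.mem_image.1 hs
    obtain ⟨b, hb, rfl⟩ := Finset.mem_image.1 ht
    exact hS a ha b hb fun h => hst (by rw [h])) (by
    intro t ht
    obtain ⟨a, ha, rfl⟩ := Finset.mem_image.1 ht
    exact hAB a ha)
  rw [Finset.sum_image hinj] at h1
  exact_mod_cast h1

theorem law : ∃ C : ℝ, 1 ≤ C ∧ ∀ (r d T H : ℝ) (S : Finset ℂ), C ≤ T → 0 ≤ H →
    1 / Real.log (T + H) ≤ r → r ≤ 1 / 4 → 0 < d → d < r →
    (∀ ρ ∈ S, riemannZeta ρ = 0 ∧ 1 - d ≤ ρ.re ∧ T ≤ ρ.im ∧ ρ.im ≤ T + H) →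
    (∀ ρ ∈ S, ∀ ρ' ∈ S, ρ ≠ ρ' → r ≤ |ρ.im - ρ'.im|) →
    (S.card : ℝ) ≤ 1 + C * (d * Real.log (Real.log (T + H)) / r) *
      ((zwin r (T - 1) (T + H + 1) : ℝ) + zwin r (-(H + 1)) (H + 1)) := by
  classical
  obtain ⟨C1, hC1, hric⟩ := ric
  obtain ⟨c0, C0, hc0, hc01, hC0, hlawU⟩ := lawU
  have hp1 : 0 < 4 * C0 * C1 := by positivity
  have hp2 : 0 < 4 * C1 / c0 := by positivity
  refine ⟨C1 + 16 + 4 * C0 * C1 + 4 * C1 / c0, by linarith, ?_⟩
  intro r d T H S hT hH hlr hr4 hd hdr hS hsep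
  set C : ℝ := C1 + 16 + 4 * C0 * C1 + 4 * C1 / c0 with hC
  have hTH : 16 ≤ T + H := by linarith
  obtain ⟨hl1, hlog1⟩ := lw_llog hTH
  set l : ℝ := Real.log (Real.log (T + H)) with hl
  have hr : 0 < r := by linarith
  set N0 : ℝ := (zwin r (T - 1) (T + H + 1) : ℝ) with hN0
  set N1 : ℝ := (zwin r (-(H + 1)) (H + 1) : ℝ) with hN1
  have hN00 : 0 ≤ N0 := Nat.cast_nonneg _
  have hN10 : 0 ≤ N1 := Nat.cast_nonneg _
  have hK : 0 ≤ d * l / r := by positivity
  -- tameness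
  set E : ℝ := Real.exp (2 * C1 * l) - 2 with hE
  have hlogE : Real.log (2 + E) = 2 * C1 * l := by
    rw [hE, show 2 + (Real.exp (2 * C1 * l) - 2) = Real.exp (2 * C1 * l) by ring, Real.log_exp]
  have htame : ∀ t : ℝ, r ≤ |t| → |t| ≤ T + H → 1 + Real.log (1 / (r / 2)) ≤ E ∧ Tame (r / 2) E t := by
    intro t h1 h2
    have hsq : T + H ≤ (T + H) ^ 2 := by nlinarith
    have hlog2 : Real.log ((T + H) ^ 2) = 2 * Real.log (T + H) := by
      rw [Real.log_pow]
      norm_num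
    have h3 : 1 / Real.log ((T + H) ^ 2) ≤ r / 2 := by
      rw [hlog2]
      have h4 : 1 / (2 * Real.log (T + H)) = (1 / Real.log (T + H)) / 2 := by
        field_simp
      rw [h4]
      linarith
    obtain ⟨E', hE1, hE2, hE3⟩ := hric (r / 2) ((T + H) ^ 2) t (by linarith) h3 (by linarith)
      (by linarith) (h2.trans hsq)
    have h5 : Real.log (Real.log ((T + H) ^ 2)) ≤ 2 * l := by
      rw [hlog2, Real.log_mul (by norm_num) (by linarith)]
      have := Real.log_two_lt_d9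
      linarith
    have h6 : 0 ≤ Real.log (1 / (r / 2)) := by
      apply Real.log_nonneg
      rw [le_div_iff₀ (by linarith)]
      linarith
    have h7 : E' ≤ E := by
      have h8 : Real.log (2 + E') ≤ 2 * C1 * l := by
        refine hE2.trans ?_
        calc C1 * Real.log (Real.log ((T + H) ^ 2)) ≤ C1 * (2 * l) :=
              mul_le_mul_of_nonneg_left h5 (by linarith)
          _ = 2 * C1 * l := by ring
      rw [Real.log_le_iff_le_exp (by linarith)] at h8
      rw [hE]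
      linarith
    exact ⟨hE1.trans h7, hE3.mono h7⟩
  have hEr : 1 + Real.log (1 / (r / 2)) ≤ E := by
    refine (htame (T + H) ?_ ?_).1
    · rw [abs_of_nonneg (by linarith)]
      linarith
    · rw [abs_of_nonneg (by linarith)]
  rcases lt_or_ge (c0 / (4 * C1) * r) (d * l) with hbig | hsmall
  · -- the trivial case
    have h1 : (S.card : ℝ) ≤ N0 := by
      have := card_le_win (A := T - 1) (B := T + H + 1) (by linarith : r ≤ 1) S (by
        intro ρ hρ
        obtain ⟨a, b, e, f⟩ := hS ρ hρ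
        exact ⟨a, by linarith, by linarith, by linarith⟩)
      rw [hN0]
      exact_mod_cast this
    have h2 : 1 ≤ 4 * C1 / c0 * (d * l / r) := by
      have h3 : c0 * r < 4 * C1 * (d * l) := by
        have : c0 / (4 * C1) * r * (4 * C1) < d * l * (4 * C1) :=
          mul_lt_mul_of_pos_right hbig (by linarith)
        have h4 : c0 / (4 * C1) * r * (4 * C1) = c0 * r := by
          field_simp
        linarith
      rw [div_mul_div_comm, le_div_iff₀ (by positivity)]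
      linarith
    have h4 : N0 ≤ 4 * C1 / c0 * (d * l / r) * N0 := by nlinarith
    have h5 : 4 * C1 / c0 * (d * l / r) * N0 ≤ C * (d * l / r) * (N0 + N1) := by
      have h6 : 4 * C1 / c0 ≤ C := by linarith
      have h7 : 4 * C1 / c0 * (d * l / r) ≤ C * (d * l / r) := mul_le_mul_of_nonneg_right h6 hK
      have h8 : 0 ≤ C * (d * l / r) := by positivity
      nlinarith
    linarith
  · have hdL : d * Real.log (2 + E) ≤ c0 * (r / 2) := by
      rw [hlogE]
      have h1 : d * l * (2 * C1) ≤ c0 / (4 * C1) * r * (2 * C1) :=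
        mul_le_mul_of_nonneg_right hsmall (by linarith)
      have h2 : c0 / (4 * C1) * r * (2 * C1) = c0 * (r / 2) := by
        field_simp
        ring
      linarith
    have hdL0 : 0 < d * Real.log (2 + E) := by
      rw [hlogE]
      positivity
    set S1 : Finset ℂ := S.filter fun ρ => (zc (r / 2) ρ.im : ℝ) * (d * Real.log (2 + E)) ≤ c0 * (r / 2)
      with hS1
    set S2 : Finset ℂ := S.filter fun ρ => ¬ (zc (r / 2) ρ.im : ℝ) * (d * Real.log (2 + E)) ≤ c0 * (r / 2)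
      with hS2
    have hcard : (S.card : ℝ) = S1.card + S2.card := by
      have := Finset.card_filter_add_card_filter_not (s := S)
        (fun ρ => (zc (r / 2) ρ.im : ℝ) * (d * Real.log (2 + E)) ≤ c0 * (r / 2))
      rw [← this]
      push_cast
      rfl
    have hS1m : ∀ ρ ∈ S1, ρ ∈ S := fun ρ hρ => (Finset.mem_filter.1 hρ).1
    have hS2m : ∀ ρ ∈ S2, ρ ∈ S := fun ρ hρ => (Finset.mem_filter.1 hρ).1
    have him : ∀ ρ ∈ S, r ≤ |ρ.im| ∧ |ρ.im| ≤ T + H := by
      intro ρ hρ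
      obtain ⟨_, _, e, f⟩ := hS ρ hρ
      rw [abs_of_nonneg (by linarith)]
      constructor <;> linarith
    have hdiff : ∀ ρ ∈ S, ∀ ρ' ∈ S, |ρ.im - ρ'.im| ≤ H := by
      intro ρ hρ ρ' hρ'
      obtain ⟨_, _, e, f⟩ := hS ρ hρ
      obtain ⟨_, _, e', f'⟩ := hS ρ' hρ'
      rw [abs_le]
      constructor <;> linarith
    -- the crowded zeros
    have hb2 : (S2.card : ℝ) ≤ 4 * C1 / c0 * (d * l / r) * N0 := by
      have h1 := lw_box (A := T) (B := T + H) hr (by linarith) S2 (fun ρ => ρ.im)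
        (fun ρ hρ ρ' hρ' h => hsep ρ (hS2m ρ hρ) ρ' (hS2m ρ' hρ') h)
        (fun ρ hρ => ⟨(hS ρ (hS2m ρ hρ)).2.2.1, (hS ρ (hS2m ρ hρ)).2.2.2⟩)
      have h2 : (S2.card : ℝ) * (c0 * (r / 2)) ≤ d * Real.log (2 + E) * N0 := by
        calc (S2.card : ℝ) * (c0 * (r / 2)) = ∑ ρ ∈ S2, c0 * (r / 2) := by
              rw [Finset.sum_const, nsmul_eq_mul]
          _ ≤ ∑ ρ ∈ S2, d * Real.log (2 + E) * (zc (r / 2) ρ.im : ℝ) := by
              refine Finset.sum_le_sum fun ρ hρ => ?_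
              have := (Finset.mem_filter.1 hρ).2
              linarith
          _ = d * Real.log (2 + E) * ∑ ρ ∈ S2, (zc (r / 2) ρ.im : ℝ) := by rw [Finset.mul_sum]
          _ ≤ _ := mul_le_mul_of_nonneg_left h1 hdL0.le
      rw [hlogE] at h2
      have h3 : (S2.card : ℝ) * (c0 * r) ≤ 4 * C1 * (d * l) * N0 := by linarith
      have h4 : 4 * C1 / c0 * (d * l / r) * N0 = 4 * C1 * (d * l) * N0 / (c0 * r) := by
        field_simp
      rw [h4, le_div_iff₀ (by positivity)]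
      exact h3
    -- the uncrowded zeros
    have hb1 : (S1.card : ℝ) ≤ 1 + 4 * C0 * C1 * (d * l / r) * N1 := by
      have h1 := hlawU (r / 2) E d S1 (by linarith) (by linarith) hEr hd hdL
        (fun ρ hρ => ⟨(hS ρ (hS1m ρ hρ)).1, (hS ρ (hS1m ρ hρ)).2.1,
          (htame ρ.im (him ρ (hS1m ρ hρ)).1 (him ρ (hS1m ρ hρ)).2).2, (Finset.mem_filter.1 hρ).2⟩)
        (fun ρ hρ ρ' hρ' h => (htame (ρ.im - ρ'.im) (hsep ρ (hS1m ρ hρ) ρ' (hS1m ρ' hρ') h)
          ((hdiff ρ (hS1m ρ hρ) ρ' (hS1m ρ' hρ')).trans (by linarith))).2)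
      have h2 : ∀ ρ ∈ S1, ∑ ρ' ∈ S1, (if ρ = ρ' then 0 else (zc (r / 2) (ρ.im - ρ'.im) : ℝ)) ≤ N1 := by
        intro ρ hρ
        have h3 : ∑ ρ' ∈ S1, (if ρ = ρ' then 0 else (zc (r / 2) (ρ.im - ρ'.im) : ℝ)) =
            ∑ ρ' ∈ S1.erase ρ, (zc (r / 2) (ρ.im - ρ'.im) : ℝ) := by
          rw [← Finset.add_sum_erase S1 _ hρ, if_pos rfl, zero_add]
          refine Finset.sum_congr rfl fun ρ' hρ' => ?_
          rw [if_neg (Finset.ne_of_mem_erase hρ').symm]
        rw [h3]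
        have h4 := lw_box (A := -H) (B := H) hr (by linarith) (S1.erase ρ) (fun ρ' => ρ.im - ρ'.im)
          (by
            intro a ha b hb hab
            have h5 := hsep a (hS1m a (Finset.mem_of_mem_erase ha)) b
              (hS1m b (Finset.mem_of_mem_erase hb)) hab
            have h6 : ρ.im - a.im - (ρ.im - b.im) = -(a.im - b.im) := by ring
            rw [h6, abs_neg]
            exact h5)
          (by
            intro a ha
            exact abs_le.1 (hdiff ρ (hS1m ρ hρ) a (hS1m a (Finset.mem_of_mem_erase ha))))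
        rw [hN1, show -(H + 1) = -H - 1 by ring]
        exact h4
      have h3 : (∑ ρ ∈ S1, ∑ ρ' ∈ S1, (if ρ = ρ' then 0 else (zc (r / 2) (ρ.im - ρ'.im) : ℝ))) / S1.card
          ≤ N1 := by
        refine div_le_of_le_mul₀ (Nat.cast_nonneg _) hN10 ?_
        calc _ ≤ ∑ ρ ∈ S1, N1 := Finset.sum_le_sum h2
          _ = N1 * S1.card := by rw [Finset.sum_const, nsmul_eq_mul, mul_comm]
      have h4 : C0 * (d * Real.log (2 + E) / (r / 2)) = 4 * C0 * C1 * (d * l / r) := by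
        rw [hlogE]
        field_simp
        ring
      rw [h4] at h1
      refine h1.trans ?_
      have h5 : 0 ≤ 4 * C0 * C1 * (d * l / r) := by positivity
      have h6 := mul_le_mul_of_nonneg_left h3 h5
      linarith
    have e1 : 4 * C1 / c0 * (d * l / r) * N0 ≤ C * (d * l / r) * N0 := by
      have : 4 * C1 / c0 ≤ C := by linarith
      exact mul_le_mul_of_nonneg_right (mul_le_mul_of_nonneg_right this hK) hN00
    have e2 : 4 * C0 * C1 * (d * l / r) * N1 ≤ C * (d * l / r) * N1 := by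
      have : 4 * C0 * C1 ≤ C := by linarith
      exact mul_le_mul_of_nonneg_right (mul_le_mul_of_nonneg_right this hK) hN10
    rw [hcard]
    linarith

theorem law0 : ∃ c : ℝ, 0 < c ∧ ∀ r H : ℝ, 0 < r → r ≤ 1 → 0 ≤ H → r * vklam (H + 1) ≤ c →
    zwin r (-(H + 1)) (H + 1) = 0 := by
  obtain ⟨c, hc, _, h⟩ := low_free
  refine ⟨c, hc, fun r H hr _ hH hrH => ?_⟩
  have h1 : r * vklam H ≤ c :=
    (mul_le_mul_of_nonneg_left (vklam_mono hH (by linarith)) hr.le).trans hrH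
  have he : {u : ℂ | riemannZeta u = 0 ∧ 1 - r < u.re ∧ -(H + 1) ≤ u.im ∧ u.im ≤ H + 1} = ∅ := by
    rw [Set.eq_empty_iff_forall_notMem]
    rintro u ⟨hu, h2, h3, h4⟩
    exact h r H hr hH h1 u hu h2 (abs_le.2 ⟨h3, h4⟩)
  unfold zwin
  rw [he]
  simp

end Pool.Agent.H76.LF
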