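import Mathlib

/-!
# SupG: an analytic function with two bounds for its Taylor coefficients, larger disc

PROOF: copy of `supH` (`Sup.lean`): for `k < k0` the term is `≤ (M/a) (1 + y/a)^k ≤ (M/a) exp (k0 y/a)`
(`1 + x ≤ exp x`); for `k ≥ k0` it is `≤ (B/(2a)) ((a+y)/(2a))^k ≤ (B/(2a)) (3/4)^k` since `y ≤ a/4`.
About 120 lines, Mathlib only.
-/

set_option autoImplicit false

open Complex

namespace Pool.Agent.H76.LF

theorem supG {H : ℂ → ℂ} {p : ℂ} {a B M y : ℝ} {k0 : ℕ} (ha : 0 < a)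
    (hH : DifferentiableOn ℂ H (Metric.ball p (2 * a))) (hB : 0 ≤ B) (hM : 0 ≤ M)
    (hy : 0 ≤ y) (hya : y ≤ a / 4) (hBk : B * (3 / 4) ^ k0 ≤ 1)
    (h1 : ∀ k : ℕ, ‖iteratedDeriv k H p / (k.factorial : ℂ)‖ ≤ M / a ^ (k + 1))
    (h2 : ∀ k : ℕ, ‖iteratedDeriv k H p / (k.factorial : ℂ)‖ ≤ B / (2 * a) ^ (k + 1)) {s : ℂ}
    (hs : ‖s - p‖ ≤ a + y) : ‖H s‖ ≤ (k0 * M * Real.exp (k0 * y / a) + 2) / a := by
  have hball : s ∈ Metric.ball p (2 * a) := by
    rw [Metric.mem_ball, dist_eq_norm]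
    linarith
  have hya' : y / a ≤ 1 / 4 := by
    rw [div_le_iff₀ ha]
    linarith
  have hya0 : 0 ≤ y / a := by positivity
  have hay : a + y = a * (1 + y / a) := by
    field_simp
  rw [hay] at hs
  have hsum := Complex.hasSum_taylorSeries_on_ball hH hball
  have hterm : ∀ k : ℕ, ‖((k.factorial : ℂ))⁻¹ • (s - p) ^ k • iteratedDeriv k H p‖ =
      ‖iteratedDeriv k H p / (k.factorial : ℂ)‖ * ‖s - p‖ ^ k := by
    intro k
    rw [smul_eq_mul, smul_eq_mul, norm_mul, norm_mul, norm_pow, norm_div, norm_inv]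
    ring
  have hpow : ∀ k : ℕ, ‖s - p‖ ^ k ≤ (a * (1 + y / a)) ^ k := fun k =>
    pow_le_pow_left₀ (norm_nonneg _) hs k
  set X : ℝ := Real.exp (k0 * y / a) with hX
  set g : ℕ → ℝ := fun k => if k < k0 then M * X / a else B / (2 * a) * (3 / 4) ^ k with hg
  have hbound : ∀ k : ℕ, ‖((k.factorial : ℂ))⁻¹ • (s - p) ^ k • iteratedDeriv k H p‖ ≤ g k := by
    intro k
    rw [hterm]
    simp only [hg]
    split_ifs with hlt
    · have e1 : ‖iteratedDeriv k H p / (k.factorial : ℂ)‖ * ‖s - p‖ ^ k ≤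
          M / a ^ (k + 1) * (a * (1 + y / a)) ^ k :=
        mul_le_mul (h1 k) (hpow k) (by positivity) (by positivity)
      have e2 : M / a ^ (k + 1) * (a * (1 + y / a)) ^ k = M / a * (1 + y / a) ^ k := by
        rw [mul_pow, pow_succ]
        field_simp
      have e3 : (1 + y / a) ^ k ≤ X := by
        have f1 : (1 + y / a) ^ k ≤ (1 + y / a) ^ k0 := pow_le_pow_right₀ (by linarith) hlt.le
        have f2 : 1 + y / a ≤ Real.exp (y / a) := by
          have := Real.add_one_le_exp (y / a)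
          linarith
        have f3 : (1 + y / a) ^ k0 ≤ Real.exp (y / a) ^ k0 := pow_le_pow_left₀ (by positivity) f2 _
        rw [← Real.exp_nat_mul, ← mul_div_assoc] at f3
        exact f1.trans f3
      have e4 : M / a * (1 + y / a) ^ k ≤ M / a * X := mul_le_mul_of_nonneg_left e3 (by positivity)
      calc _ ≤ M / a * X := by rw [← e2] at e4; exact e1.trans e4
        _ = M * X / a := by ring
    · have e1 : ‖iteratedDeriv k H p / (k.factorial : ℂ)‖ * ‖s - p‖ ^ k ≤
          B / (2 * a) ^ (k + 1) * (a * (1 + y / a)) ^ k :=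
        mul_le_mul (h2 k) (hpow k) (by positivity) (by positivity)
      have e2 : B / (2 * a) ^ (k + 1) * (a * (1 + y / a)) ^ k =
          B / (2 * a) * ((1 + y / a) / 2) ^ k := by
        rw [mul_pow, pow_succ, mul_pow, div_pow]
        field_simp
        ring
      have e3 : ((1 + y / a) / 2) ^ k ≤ (3 / 4) ^ k :=
        pow_le_pow_left₀ (by positivity) (by linarith) k
      have e4 : B / (2 * a) * ((1 + y / a) / 2) ^ k ≤ B / (2 * a) * (3 / 4) ^ k :=
        mul_le_mul_of_nonneg_left e3 (by positivity)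
      rw [← e2] at e4
      exact e1.trans e4
  have hgsum : HasSum g (k0 * M * X / a + B / (2 * a) * (3 / 4) ^ k0 * 4) := by
    rw [← hasSum_nat_add_iff' k0]
    have e1 : ∑ i ∈ Finset.range k0, g i = k0 * M * X / a := by
      have : ∀ i ∈ Finset.range k0, g i = M * X / a := by
        intro i hi
        simp only [hg]
        rw [if_pos (Finset.mem_range.1 hi)]
      rw [Finset.sum_congr rfl this, Finset.sum_const, Finset.card_range, nsmul_eq_mul]
      ring
    rw [e1, add_sub_cancel_left]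
    have e2 : (fun n => g (n + k0)) = fun n => B / (2 * a) * (3 / 4) ^ k0 * (3 / 4) ^ n := by
      funext n
      simp only [hg]
      rw [if_neg (by omega), pow_add]
      ring
    rw [e2]
    refine HasSum.mul_left _ ?_
    have := hasSum_geometric_of_lt_one (r := (3 / 4 : ℝ)) (by norm_num) (by norm_num)
    norm_num at this
    exact this
  have h3 := tsum_of_norm_bounded hgsum hbound
  rw [hsum.tsum_eq] at h3
  refine h3.trans ?_
  have e5 : B / (2 * a) * (3 / 4) ^ k0 * 4 = 2 * (B * (3 / 4) ^ k0) / a := by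
    field_simp
    ring
  rw [e5, ← add_div]
  apply div_le_div_of_nonneg_right _ ha.le
  linarith

end Pool.Agent.H76.LF
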