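import Mathlib
import Pool.Agent.H76.LF.Low

/-!
# PrA: the prime sum `PD` and `ζ'/ζ`

PROOF: for `b > 0`, `W = ∑' Λ(n) n^(-1-b) (1 + θ cos (t log n))` (`LSeries_vonMangoldt_eq_deriv_riemannZeta_div` at
`1 + b` and `1 + b + it`; `Re n^(-it) = cos (t log n)`; see `Dk`, `dco`, `Dk_eq`, `summable_dco` in
`H76/CR/DerivL.lean`, `k = 0`), all terms are `≥ 0`.  `|1 + θ p^(it)|² = 2 (1 + θ cos (t log p))` for `θ = ±1`.
(1) `PD θ y t = ∑_(p ≤ y) (log p/p) 2 (1 + θ cos) ≤ 2 y^b ∑_(p ≤ y) log p p^(-1-b) (1 + θ cos) ≤ 2 y^b W`.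
(2) `n ≤ y`: `n^(-b) ≤ 1`, primes give at most `PD θ y t/2`, proper prime powers at most
`2 ∑_(p, k ≥ 2) log p/p^k ≤ C`; `n > y`: at most `2 ∑_(n > y) Λ(n) n^(-1-b) ≤ 2 y^(-b/2) ∑' Λ(n) n^(-1-b/2) ≤
2 y^(-b/2) (2/b + C)` (`lowA`).  About 220 lines.
-/

set_option autoImplicit false

open Complex

namespace Pool.Agent.H76.LF

open Pool.Agent.H76.CR Pool.Agent.H76.RP

private theorem pa_Dk {b : ℝ} (hb : 0 < b) (t : ℝ) :
    Dk b 0 t = -(deriv riemannZeta (pt b t) / riemannZeta (pt b t)) := by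
  rw [Dk_eq hb 0 t]
  have hre : 1 < (pt b t).re := by
    simp [pt]
    linarith
  have h := ArithmeticFunction.LSeries_vonMangoldt_eq_deriv_riemannZeta_div hre
  simp only [pow_zero, Nat.factorial_zero, Nat.cast_one, div_one, iteratedDeriv_zero, one_mul]
  rw [h, neg_div]

private noncomputable def pa_c (t : ℝ) (n : ℕ) : ℝ := ((n : ℂ) ^ (-((t : ℂ) * I))).re

private theorem pa_c_abs (t : ℝ) (n : ℕ) : |pa_c t n| ≤ 1 := by
  unfold pa_c
  refine (Complex.abs_re_le_norm _).trans ?_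
  rcases Nat.eq_zero_or_pos n with rfl | hn
  · by_cases ht : t = 0
    · subst ht
      simp
    · rw [Nat.cast_zero, Complex.zero_cpow]
      · simp
      · simpa using ht
  · rw [Complex.norm_natCast_cpow_of_pos hn]
    simp

private theorem pa_c_zero (n : ℕ) : pa_c 0 n = 1 := by
  simp [pa_c]

private theorem pa_factor {θ : ℝ} (hθ : θ = 1 ∨ θ = -1) (t : ℝ) (n : ℕ) :
    0 ≤ 1 + θ * pa_c t n ∧ 1 + θ * pa_c t n ≤ 2 := by
  have h := abs_le.1 (pa_c_abs t n)
  rcases hθ with rfl | rfl <;> constructor <;> linarith [h.1, h.2]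

private theorem pa_sum {b : ℝ} (hb : 0 < b) (t : ℝ) :
    Summable (fun n : ℕ => dco b 0 n * pa_c t n) ∧
    (Dk b 0 t).re = ∑' n : ℕ, dco b 0 n * pa_c t n := by
  have hs := summable_dco hb 0
  have hsc : Summable (fun n : ℕ => (dco b 0 n : ℂ) * (n : ℂ) ^ (-((t : ℂ) * I))) := by
    refine Summable.of_norm_bounded hs fun n => ?_
    rw [norm_mul, Complex.norm_real, Real.norm_eq_abs, abs_of_nonneg (dco_nonneg b 0 n)]
    have h1 : ‖(n : ℂ) ^ (-((t : ℂ) * I))‖ ≤ 1 := by
      rcases Nat.eq_zero_or_pos n with rfl | hn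
      · by_cases ht : t = 0
        · subst ht
          simp
        · rw [Nat.cast_zero, Complex.zero_cpow]
          · simp
          · simpa using ht
      · rw [Complex.norm_natCast_cpow_of_pos hn]
        simp
    exact mul_le_of_le_one_right (dco_nonneg b 0 n) h1
  have hre : ∀ n : ℕ, ((dco b 0 n : ℂ) * (n : ℂ) ^ (-((t : ℂ) * I))).re = dco b 0 n * pa_c t n := by
    intro n
    rw [Complex.re_ofReal_mul]
    rfl
  constructor
  · refine Summable.of_norm_bounded hs fun n => ?_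
    rw [norm_mul, Real.norm_eq_abs, Real.norm_eq_abs, abs_of_nonneg (dco_nonneg b 0 n)]
    exact mul_le_of_le_one_right (dco_nonneg b 0 n) (pa_c_abs t n)
  · unfold Dk
    rw [Complex.re_tsum hsc]
    exact tsum_congr hre

private theorem pa_W {θ b t W : ℝ} (hb : 0 < b)
    (hW : W = -(deriv riemannZeta ((1 + b : ℝ) : ℂ) / riemannZeta ((1 + b : ℝ) : ℂ)).re -
      θ * (deriv riemannZeta (((1 + b : ℝ) : ℂ) + t * I) /
        riemannZeta (((1 + b : ℝ) : ℂ) + t * I)).re) :
    Summable (fun n : ℕ => dco b 0 n * (1 + θ * pa_c t n)) ∧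
    W = ∑' n : ℕ, dco b 0 n * (1 + θ * pa_c t n) := by
  have h0 : (Dk b 0 0).re =
      -(deriv riemannZeta ((1 + b : ℝ) : ℂ) / riemannZeta ((1 + b : ℝ) : ℂ)).re := by
    rw [pa_Dk hb 0, Complex.neg_re]
    have e : pt b 0 = ((1 + b : ℝ) : ℂ) := by simp [pt]
    rw [e]
  have h1 : (Dk b 0 t).re = -(deriv riemannZeta (((1 + b : ℝ) : ℂ) + t * I) /
        riemannZeta (((1 + b : ℝ) : ℂ) + t * I)).re := by
    rw [pa_Dk hb t, Complex.neg_re]
    rfl
  obtain ⟨s0, e0⟩ := pa_sum hb 0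
  obtain ⟨s1, e1⟩ := pa_sum hb t
  simp only [pa_c_zero, mul_one] at s0 e0
  have hfun : (fun n : ℕ => dco b 0 n * (1 + θ * pa_c t n)) =
      fun n : ℕ => dco b 0 n + θ * (dco b 0 n * pa_c t n) := by
    funext n
    ring
  rw [hfun]
  have s2 := s1.mul_left θ
  refine ⟨s0.add s2, ?_⟩
  rw [Summable.tsum_add s0 s2, tsum_mul_left, ← e0, ← e1, h0, h1, hW]
  ring

private theorem pa_norm {θ : ℝ} (hθ : θ = 1 ∨ θ = -1) (t : ℝ) {p : ℕ} (hp : 0 < p) :
    ‖(1 : ℂ) + θ * (p : ℂ) ^ ((t : ℂ) * I)‖ ^ 2 = 2 * (1 + θ * pa_c t p) := by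
  have hn : ‖(p : ℂ) ^ ((t : ℂ) * I)‖ = 1 := by
    rw [Complex.norm_natCast_cpow_of_pos hp]
    simp
  set z : ℂ := (p : ℂ) ^ ((t : ℂ) * I) with hz
  have hinv : (p : ℂ) ^ (-((t : ℂ) * I)) = z⁻¹ := by
    rw [Complex.cpow_neg]
  have hc : pa_c t p = z.re := by
    unfold pa_c
    rw [hinv, Complex.inv_re, Complex.normSq_eq_norm_sq, hn]
    simp
  have hnsq : z.re ^ 2 + z.im ^ 2 = 1 := by
    have h := Complex.normSq_eq_norm_sq z
    rw [hn, Complex.normSq_apply] at h
    nlinarith [h]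
  rw [hc, ← Complex.normSq_eq_norm_sq, Complex.normSq_apply]
  have hre : ((1 : ℂ) + θ * z).re = 1 + θ * z.re := by simp
  have him : ((1 : ℂ) + θ * z).im = θ * z.im := by simp
  rw [hre, him]
  rcases hθ with rfl | rfl <;> nlinarith [hnsq]

private theorem pa_dco_prime {b : ℝ} {p : ℕ} (hp : p.Prime) :
    dco b 0 p = Real.log p * (p : ℝ) ^ (-(1 + b)) := by
  unfold dco
  rw [ArithmeticFunction.vonMangoldt_apply_prime hp]
  simp

private theorem pa_npp : ∃ C : ℝ, 0 ≤ C ∧ ∀ S : Finset ℕ, (∀ n ∈ S, ¬ n.Prime) →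
    ∑ n ∈ S, ArithmeticFunction.vonMangoldt n / (n : ℝ) ≤ C := by
  have h := ArithmeticFunction.vonMangoldt.summable_residueClass_non_primes_div (q := 1) (0 : ZMod 1)
  have hr : ∀ n : ℕ, ArithmeticFunction.vonMangoldt.residueClass (0 : ZMod 1) n =
      ArithmeticFunction.vonMangoldt n := by
    intro n
    unfold ArithmeticFunction.vonMangoldt.residueClass
    rw [Set.indicator_of_mem]
    exact Subsingleton.elim _ _
  simp only [hr] at h
  have hnn : ∀ n : ℕ, 0 ≤ (if n.Prime then 0 else ArithmeticFunction.vonMangoldt n) / (n : ℝ) := by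
    intro n
    split_ifs
    · simp
    · exact div_nonneg ArithmeticFunction.vonMangoldt_nonneg (Nat.cast_nonneg n)
  refine ⟨∑' n : ℕ, (if n.Prime then 0 else ArithmeticFunction.vonMangoldt n) / (n : ℝ),
    tsum_nonneg hnn, fun S hS => ?_⟩
  refine le_trans (le_of_eq ?_) (h.sum_le_tsum S (fun n _ => hnn n))
  refine Finset.sum_congr rfl fun n hn => ?_
  rw [if_neg (hS n hn)]

theorem prA : ∃ C : ℝ, 1 ≤ C ∧ ∀ θ b y t W : ℝ, (θ = 1 ∨ θ = -1) → 0 < b → b ≤ 1 → 2 ≤ y →
    W = -(deriv riemannZeta ((1 + b : ℝ) : ℂ) / riemannZeta ((1 + b : ℝ) : ℂ)).re -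
      θ * (deriv riemannZeta (((1 + b : ℝ) : ℂ) + t * I) / riemannZeta (((1 + b : ℝ) : ℂ) + t * I)).re →
    PD θ y t ≤ 2 * y ^ b * W ∧ W ≤ PD θ y t / 2 + C + y ^ (-(b / 2)) * (4 / b + C) := by
  classical
  obtain ⟨C1, hC1, hlow⟩ := lowA
  obtain ⟨C2, hC2, hnpp⟩ := pa_npp
  refine ⟨2 * C1 + 2 * C2, by linarith, fun θ b y t W hθ hb hb1 hy hW => ?_⟩
  obtain ⟨hsum, hWeq⟩ := pa_W hb hW
  have hy0 : 0 < y := by linarith
  have hnn : ∀ n : ℕ, 0 ≤ dco b 0 n * (1 + θ * pa_c t n) := fun n =>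
    mul_nonneg (dco_nonneg b 0 n) (pa_factor hθ t n).1
  set N : ℕ := ⌊y⌋₊ with hN
  set P : Finset ℕ := (Finset.Icc 1 N).filter Nat.Prime with hP
  have hPD : PD θ y t = ∑ p ∈ P, Real.log p / p * (2 * (1 + θ * pa_c t p)) := by
    unfold PD
    refine Finset.sum_congr rfl fun p hp => ?_
    have hpp := (Finset.mem_filter.1 hp).2
    rw [pa_norm hθ t hpp.pos]
  constructor
  · have h1 : ∑ p ∈ P, dco b 0 p * (1 + θ * pa_c t p) ≤ W := by
      rw [hWeq]
      exact hsum.sum_le_tsum P (fun n _ => hnn n)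
    have h2 : PD θ y t ≤ 2 * y ^ b * ∑ p ∈ P, dco b 0 p * (1 + θ * pa_c t p) := by
      rw [hPD, Finset.mul_sum]
      refine Finset.sum_le_sum fun p hp => ?_
      have hpp := (Finset.mem_filter.1 hp).2
      have hpy : (p : ℝ) ≤ y := by
        have h3 := (Finset.mem_Icc.1 (Finset.mem_filter.1 hp).1).2
        exact (Nat.le_floor_iff hy0.le).1 h3
      have hp0 : (0 : ℝ) < p := by exact_mod_cast hpp.pos
      rw [pa_dco_prime hpp]
      have h4 : (1 : ℝ) / p ≤ y ^ b * (p : ℝ) ^ (-(1 + b)) := by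
        have h5 : (p : ℝ) ^ (-(1 + b)) = (p : ℝ) ^ (-b) * (1 / p) := by
          rw [show -(1 + b) = -b + -1 by ring, Real.rpow_add hp0, Real.rpow_neg_one, one_div]
        rw [h5, ← mul_assoc]
        have h6 : 1 ≤ y ^ b * (p : ℝ) ^ (-b) := by
          rw [Real.rpow_neg hp0.le, ← div_eq_mul_inv, one_le_div (Real.rpow_pos_of_pos hp0 b)]
          exact Real.rpow_le_rpow hp0.le hpy hb.le
        have h7 : (0 : ℝ) ≤ 1 / p := by positivity
        nlinarith
      have h8 : 0 ≤ Real.log p := Real.log_natCast_nonneg p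
      have h9 := (pa_factor hθ t p).1
      calc Real.log p / p * (2 * (1 + θ * pa_c t p))
          = (1 / p) * (Real.log p * (2 * (1 + θ * pa_c t p))) := by ring
        _ ≤ (y ^ b * (p : ℝ) ^ (-(1 + b))) * (Real.log p * (2 * (1 + θ * pa_c t p))) :=
            mul_le_mul_of_nonneg_right h4 (by positivity)
        _ = 2 * y ^ b * (Real.log p * (p : ℝ) ^ (-(1 + b)) * (1 + θ * pa_c t p)) := by ring
    refine h2.trans ?_
    exact mul_le_mul_of_nonneg_left h1 (by positivity)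
  · -- upper bound
    have hb2 : 0 < b / 2 := by linarith
    have hsp : Summable (fun n : ℕ => dco (b / 2) 0 n) := summable_dco hb2 0
    have hT : ∑' n : ℕ, dco (b / 2) 0 n ≤ 2 / b + C1 := by
      have h3 := (hlow (b / 2) hb2 (by linarith)).1 0
      have h4 := pa_Dk hb2 0
      rw [Dk_zero] at h4
      have h5 : pt (b / 2) 0 = ((1 + b / 2 : ℝ) : ℂ) + ((0 : ℝ) : ℂ) * I := rfl
      rw [h5] at h4
      have h6 : ((∑' n : ℕ, dco (b / 2) 0 n : ℝ)) ≤ ‖((∑' n : ℕ, dco (b / 2) 0 n : ℝ) : ℂ)‖ := by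
        rw [Complex.norm_real]
        exact le_abs_self _
      rw [h4, norm_neg] at h6
      have h7 : 1 / (b / 2) = 2 / b := by
        field_simp
      rw [h7] at h3
      linarith
    set F : ℕ → ℝ := fun n => dco b 0 n * (1 + θ * pa_c t n) with hF
    have hsplit : W = ∑ n ∈ Finset.range (N + 1), F n + ∑' n : ℕ, F (n + (N + 1)) := by
      rw [hWeq]
      exact (hsum.sum_add_tsum_nat_add (N + 1)).symm
    have hF0 : F 0 = 0 := by
      simp [hF, dco]
    have hrange : ∑ n ∈ Finset.range (N + 1), F n = ∑ n ∈ Finset.Icc 1 N, F n := by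
      rw [Finset.sum_range_succ', hF0, add_zero]
      have : Finset.Icc 1 N = (Finset.range N).image (fun n => n + 1) := by
        ext a
        simp only [Finset.mem_Icc, Finset.mem_image, Finset.mem_range]
        constructor
        · rintro ⟨h1, h2⟩
          exact ⟨a - 1, by omega, by omega⟩
        · rintro ⟨c, h1, rfl⟩
          omega
      rw [this, Finset.sum_image]
      intro a _ c _ h
      simpa using h
    have hparts : ∑ n ∈ Finset.Icc 1 N, F n =
        ∑ n ∈ P, F n + ∑ n ∈ (Finset.Icc 1 N).filter (fun n => ¬ Nat.Prime n), F n :=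
      (Finset.sum_filter_add_sum_filter_not _ _ _).symm
    have hrp : ∀ n : ℕ, 0 < n → (n : ℝ) ^ (-(1 + b)) ≤ 1 / n := by
      intro n hn
      have hn1 : (1 : ℝ) ≤ n := by exact_mod_cast hn
      rw [one_div, ← Real.rpow_neg_one]
      exact Real.rpow_le_rpow_of_exponent_le hn1 (by linarith)
    have hprime : ∑ n ∈ P, F n ≤ PD θ y t / 2 := by
      rw [hPD, Finset.sum_div]
      refine Finset.sum_le_sum fun p hp => ?_
      have hpp := (Finset.mem_filter.1 hp).2
      simp only [hF]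
      rw [pa_dco_prime hpp]
      have h8 : 0 ≤ Real.log p := Real.log_natCast_nonneg p
      have h9 := (pa_factor hθ t p).1
      have h10 := hrp p hpp.pos
      calc Real.log p * (p : ℝ) ^ (-(1 + b)) * (1 + θ * pa_c t p)
          = (p : ℝ) ^ (-(1 + b)) * (Real.log p * (1 + θ * pa_c t p)) := by ring
        _ ≤ 1 / p * (Real.log p * (1 + θ * pa_c t p)) :=
            mul_le_mul_of_nonneg_right h10 (by positivity)
        _ = Real.log p / p * (2 * (1 + θ * pa_c t p)) / 2 := by ring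
    have hnon : ∑ n ∈ (Finset.Icc 1 N).filter (fun n => ¬ Nat.Prime n), F n ≤ 2 * C2 := by
      have h11 := hnpp ((Finset.Icc 1 N).filter (fun n => ¬ Nat.Prime n))
        (fun n hn => (Finset.mem_filter.1 hn).2)
      refine le_trans ?_ (mul_le_mul_of_nonneg_left h11 (by norm_num : (0:ℝ) ≤ 2))
      rw [Finset.mul_sum]
      refine Finset.sum_le_sum fun n hn => ?_
      have hn1 : 0 < n := (Finset.mem_Icc.1 (Finset.mem_filter.1 hn).1).1
      have h12 := hrp n hn1
      have h13 := pa_factor hθ t n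
      have h14 : 0 ≤ ArithmeticFunction.vonMangoldt n := ArithmeticFunction.vonMangoldt_nonneg
      have h15 : dco b 0 n ≤ ArithmeticFunction.vonMangoldt n / n := by
        unfold dco
        simp only [pow_zero, Nat.factorial_zero, Nat.cast_one, div_one, mul_one]
        calc ArithmeticFunction.vonMangoldt n * (n : ℝ) ^ (-(1 + b))
            ≤ ArithmeticFunction.vonMangoldt n * (1 / n) := mul_le_mul_of_nonneg_left h12 h14
          _ = ArithmeticFunction.vonMangoldt n / n := by ring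
      have h16 := dco_nonneg b 0 n
      simp only [hF]
      nlinarith [h13.1, h13.2]
    have htail : ∑' n : ℕ, F (n + (N + 1)) ≤ y ^ (-(b / 2)) * (4 / b + 2 * C1) := by
      have hs1 : Summable (fun n : ℕ => F (n + (N + 1))) := (summable_nat_add_iff (N + 1)).2 hsum
      have hs2 : Summable (fun n : ℕ => 2 * y ^ (-(b / 2)) * dco (b / 2) 0 (n + (N + 1))) :=
        ((summable_nat_add_iff (N + 1)).2 hsp).mul_left _
      have hle : ∀ n : ℕ, F (n + (N + 1)) ≤ 2 * y ^ (-(b / 2)) * dco (b / 2) 0 (n + (N + 1)) := by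
        intro n
        set m := n + (N + 1) with hm
        have hmy : y ≤ (m : ℝ) := by
          have h17 : y < N + 1 := Nat.lt_floor_add_one y
          have h18 : ((N + 1 : ℕ) : ℝ) ≤ m := by
            exact_mod_cast (by omega : N + 1 ≤ m)
          push_cast at h18
          linarith
        have hm0 : (0 : ℝ) < m := by linarith
        have h13 := pa_factor hθ t m
        have h14 : 0 ≤ ArithmeticFunction.vonMangoldt m := ArithmeticFunction.vonMangoldt_nonneg
        have h19 : (m : ℝ) ^ (-(1 + b)) ≤ y ^ (-(b / 2)) * (m : ℝ) ^ (-(1 + b / 2)) := by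
          rw [show -(1 + b) = -(b / 2) + -(1 + b / 2) by ring, Real.rpow_add hm0]
          refine mul_le_mul_of_nonneg_right ?_ (by positivity)
          exact Real.rpow_le_rpow_of_nonpos hy0 hmy (by linarith)
        have h20 : dco b 0 m ≤ y ^ (-(b / 2)) * dco (b / 2) 0 m := by
          unfold dco
          simp only [pow_zero, Nat.factorial_zero, Nat.cast_one, div_one, mul_one]
          calc ArithmeticFunction.vonMangoldt m * (m : ℝ) ^ (-(1 + b))
              ≤ ArithmeticFunction.vonMangoldt m * (y ^ (-(b / 2)) * (m : ℝ) ^ (-(1 + b / 2))) :=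
                mul_le_mul_of_nonneg_left h19 h14
            _ = y ^ (-(b / 2)) * (ArithmeticFunction.vonMangoldt m * (m : ℝ) ^ (-(1 + b / 2))) := by
                ring
        have h16 := dco_nonneg b 0 m
        simp only [hF]
        nlinarith [h13.1, h13.2, mul_le_mul_of_nonneg_left h13.2 h16]
      refine (Summable.tsum_le_tsum hle hs1 hs2).trans ?_
      rw [tsum_mul_left]
      have h21 : ∑' n : ℕ, dco (b / 2) 0 (n + (N + 1)) ≤ 2 / b + C1 := by
        have h22 := hsp.sum_add_tsum_nat_add (N + 1)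
        have h23 : 0 ≤ ∑ n ∈ Finset.range (N + 1), dco (b / 2) 0 n :=
          Finset.sum_nonneg fun n _ => dco_nonneg _ _ _
        linarith
      have h24 : 0 ≤ y ^ (-(b / 2)) := by positivity
      calc 2 * y ^ (-(b / 2)) * ∑' n : ℕ, dco (b / 2) 0 (n + (N + 1))
          ≤ 2 * y ^ (-(b / 2)) * (2 / b + C1) := mul_le_mul_of_nonneg_left h21 (by positivity)
        _ = y ^ (-(b / 2)) * (4 / b + 2 * C1) := by ring
    have h25 : y ^ (-(b / 2)) * (4 / b + 2 * C1) ≤ y ^ (-(b / 2)) * (4 / b + (2 * C1 + 2 * C2)) := by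
      have h24 : 0 ≤ y ^ (-(b / 2)) := by positivity
      exact mul_le_mul_of_nonneg_left (by linarith) h24
    rw [hsplit, hrange, hparts]
    linarith

end Pool.Agent.H76.LF
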